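import Pool.Agent.H60Gulko.Sys

/-!
# Systems from weakly σ-point-finite refinements
-/

set_option autoImplicit false

open Set Cardinal Topology

namespace Pool.Agent.H60Gulko

universe u

variable {X : Type u} [TopologicalSpace X]

theorem exists_sys [CompactSpace X] [T2Space X]
    (h : WeaklySigmaMetacompact {p : X × X // p.1 ≠ p.2})
    (ask : C(X, ℝ) → C(X, ℝ) → Set (Set (X × X)))
    (ask_countable : ∀ f g, (ask f g).Countable)
    (ask_open : ∀ f g, ∀ O ∈ ask f g, IsOpen O) : ∃ S : Sys X, S.ask = ask := by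
  classical
  let Y := {p : X × X // p.1 ≠ p.2}
  let U : Set (Set Y) := {V | ∃ f : C(X, ℝ), V = {p : Y | f p.1.1 < 0 ∧ 0 < f p.1.2}}
  obtain ⟨R, hR1, hR2, hR3, T, hT1, hT2⟩ := h U (by
    rintro _ ⟨f, rfl⟩
    exact (isOpen_lt (f.continuous.comp (continuous_fst.comp continuous_subtype_val))
      continuous_const).inter (isOpen_lt continuous_const
        (f.continuous.comp (continuous_snd.comp continuous_subtype_val)))) (by
    rw [Set.eq_univ_iff_forall]
    rintro ⟨⟨x, y⟩, hxy⟩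
    obtain ⟨f, hf0, hf1, -⟩ := exists_continuous_zero_one_of_isClosed (isClosed_singleton (x := x))
      (isClosed_singleton (x := y)) (Set.disjoint_singleton.2 hxy)
    have h0 : f x = 0 := hf0 rfl
    have h1 : f y = 1 := hf1 rfl
    refine ⟨_, ⟨f - ContinuousMap.const X (1 / 2 : ℝ), rfl⟩, ?_⟩
    constructor
    · show f x - 1 / 2 < 0
      rw [h0]
      norm_num
    · show 0 < f y - 1 / 2
      rw [h1]
      norm_num)
  have hopen : IsOpen {p : X × X | p.1 ≠ p.2} := isOpen_ne_fun continuous_fst continuous_snd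
  have hval : IsOpenMap (Subtype.val : Y → X × X) := hopen.isOpenMap_subtype_val
  have hφ : ∀ V : R, ∃ f : C(X, ℝ), ∀ p ∈ V.1, f p.1.1 < 0 ∧ 0 < f p.1.2 := by
    rintro ⟨V, hV⟩
    obtain ⟨_, ⟨f, rfl⟩, hVf⟩ := hR3 V hV
    exact ⟨f, fun p hp => hVf hp⟩
  choose φ hφ using hφ
  refine ⟨⟨R, fun V => Subtype.val '' V.1, fun V => {n | V.1 ∈ T n},
    fun V => hval _ (hR1 _ V.2), ?_, φ, ?_, ?_, ask, ask_countable, ask_open⟩, rfl⟩
  · intro x y hxy
    have h1 : (⟨(x, y), hxy⟩ : Y) ∈ ⋃₀ R := by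
      rw [hR2]
      exact mem_univ _
    obtain ⟨V, hV, hxV⟩ := h1
    exact ⟨⟨V, hV⟩, _, hxV, rfl⟩
  · rintro V u v ⟨p, hp, hpe⟩
    obtain ⟨h1, h2⟩ := hφ V p hp
    rw [hpe] at h1 h2
    exact (h1.trans h2).ne
  · rintro V z
    by_cases hz : z.1 = z.2
    · have h1 : V.1 ∈ ⋃ n, T n := by
        rw [← hT1]
        exact V.2
      obtain ⟨n, hn⟩ := mem_iUnion.1 h1
      refine ⟨n, hn, Set.finite_empty.subset ?_⟩
      rintro V' ⟨-, p, -, hpe⟩
      exact p.2 (by rw [hpe]; exact hz)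
    · have h1 : V.1 ∈ ⋃ n ∈ {n : ℕ | {B | B ∈ T n ∧ (⟨z, hz⟩ : Y) ∈ B}.Finite}, T n := by
        rw [← hT2]
        exact V.2
      simp only [mem_iUnion] at h1
      obtain ⟨n, hn, hVn⟩ := h1
      refine ⟨n, hVn, ?_⟩
      refine Set.Finite.of_finite_image (f := Subtype.val) ?_ Subtype.val_injective.injOn
      refine (show Set.Finite _ from hn).subset ?_
      rintro _ ⟨V', ⟨h2, p, hp, hpe⟩, rfl⟩
      refine ⟨h2, ?_⟩
      have : p = ⟨z, hz⟩ := Subtype.ext hpe
      rw [← this]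
      exact hp

theorem good_univ (S : Sys X) : S.Good univ :=
  ⟨mem_univ _, fun _ _ _ _ _ _ _ _ => subset_univ _⟩

end Pool.Agent.H60Gulko
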