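import Pool.Agent.H60Gulko.Family
import Pool.Agent.H60Gulko.Extract

/-!
# Coded families of boxes inscribed in an open family of subsets of the square
-/

set_option autoImplicit false

open Set Cardinal Topology

namespace Pool.Agent.H60Gulko

universe u

variable {X : Type u} [TopologicalSpace X]

/-- the system decides an open family -/
structure Asks (S : Sys X) (O : Set (Set (X × X))) : Prop where
  mem : ∀ f g, ⋃₀ O ∈ S.ask f g
  sub : ∀ f g : C(X, ℝ), (∀ z : X × X, 0 < f z.1 → 0 < g z.2 → z ∈ ⋃₀ O) →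
    ∀ z : X × X, 0 < f z.1 → 0 < g z.2 → ∃ G ∈ O, z ∈ G ∧ G ∈ S.ask f g

theorem exists_asks [CompactSpace X] [T2Space X]
    (h : WeaklySigmaMetacompact {p : X × X // p.1 ≠ p.2}) (O : Set (Set (X × X)))
    (hO : ∀ G ∈ O, IsOpen G) : ∃ S : Sys X, Asks S O := by
  classical
  have key : ∀ (f g : C(X, ℝ)) (δ : ℚ), ∃ T : Set (Set (X × X)), T.Finite ∧ T ⊆ O ∧
      ((∀ z : X × X, 0 < f z.1 → 0 < g z.2 → z ∈ ⋃₀ O) → 0 < δ →
        ∀ z : X × X, (δ : ℝ) ≤ f z.1 → (δ : ℝ) ≤ g z.2 → z ∈ ⋃₀ T) := by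
    intro f g δ
    by_cases hfg : (∀ z : X × X, 0 < f z.1 → 0 < g z.2 → z ∈ ⋃₀ O) ∧ 0 < δ
    · have hδ : (0 : ℝ) < δ := by exact_mod_cast hfg.2
      have hK : IsCompact {z : X × X | (δ : ℝ) ≤ f z.1 ∧ (δ : ℝ) ≤ g z.2} :=
        ((isClosed_le continuous_const (f.continuous.comp continuous_fst)).inter
          (isClosed_le continuous_const (g.continuous.comp continuous_snd))).isCompact
      obtain ⟨T, hT1, hT2, hT3⟩ := hK.elim_finite_subcover_image (b := O) (c := id)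
        (fun G hG => hO G hG) (by
        intro z hz
        obtain ⟨G, hG, hzG⟩ := hfg.1 z (hδ.trans_le hz.1) (hδ.trans_le hz.2)
        exact mem_biUnion hG hzG)
      refine ⟨T, hT2, hT1, fun _ _ z h1 h2 => ?_⟩
      have := hT3 (show z ∈ {z : X × X | (δ : ℝ) ≤ f z.1 ∧ (δ : ℝ) ≤ g z.2} from ⟨h1, h2⟩)
      simp only [mem_iUnion] at this
      obtain ⟨G, hG, hzG⟩ := this
      exact ⟨G, hG, hzG⟩
    · exact ⟨∅, Set.finite_empty, empty_subset _, fun h1 h2 => absurd ⟨h1, h2⟩ hfg⟩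
  choose T hT1 hT2 hT3 using key
  obtain ⟨S, hS⟩ := exists_sys h (fun f g => insert (⋃₀ O) (⋃ δ : ℚ, T f g δ))
    (fun f g => (Set.countable_iUnion fun δ => (hT1 f g δ).countable).insert _) (by
    rintro f g G (rfl | hG)
    · exact isOpen_sUnion hO
    · obtain ⟨δ, hδ⟩ := mem_iUnion.1 hG
      exact hO G (hT2 f g δ hδ))
  refine ⟨S, fun f g => ?_, fun f g hfg z h1 h2 => ?_⟩
  · rw [hS]
    exact mem_insert _ _
  · obtain ⟨δ, hδ1, hδ2⟩ := exists_rat_btwn (lt_min h1 h2)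
    have hδ0 : 0 < δ := by exact_mod_cast hδ1
    rw [lt_min_iff] at hδ2
    obtain ⟨G, hG, hzG⟩ := hT3 f g δ hfg hδ0 z hδ2.1.le hδ2.2.le
    refine ⟨G, hT2 f g δ hG, hzG, ?_⟩
    rw [hS]
    exact Or.inr (mem_iUnion.2 ⟨δ, hG⟩)

/-- a coded family of boxes attached to a closed-off set -/
structure BFam (S : Sys X) (O : Set (Set (X × X))) (A : Set (E X))
    (V : Set (C(X, ℝ) × C(X, ℝ) × Code S.Ω)) : Prop where
  sub : ∀ t ∈ V, ∃ G ∈ O, ∀ z : X × X, 0 < t.1 z.1 → 0 < t.2.1 z.2 → z ∈ G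
  cov : ∀ x y, (ret A x, ret A y) ∈ ⋃₀ O → ∃ t ∈ V, 0 < t.1 x ∧ 0 < t.2.1 y
  fin : ∀ z : X × X, FinAt S.cls V (fun t z => 0 < t.1 z.1 ∧ 0 < t.2.1 z.2)
    (fun t => t.2.2) z

theorem bfam_countable [CompactSpace X] {S : Sys X} {O : Set (Set (X × X))} (hS : Asks S O)
    (hO : ∀ G ∈ O, IsOpen G) {A : Set (E X)} (hA : S.Good A) (hc : #A ≤ ℵ₀) :
    ∃ V, BFam S O A V := by
  have hF : (Fn A).Countable := by
    have h1 : A.Countable := Cardinal.le_aleph0_iff_set_countable.1 hc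
    exact h1.preimage Sum.inr_injective
  obtain ⟨enc, henc⟩ := Set.countable_iff_exists_injOn.1 (hF.prod hF)
  refine ⟨{t | ∃ f ∈ Fn A, ∃ g ∈ Fn A, (∃ G ∈ O, ∀ z : X × X, 0 < f z.1 → 0 < g z.2 → z ∈ G) ∧
    t = (f, g, .leaf (enc (f, g)))}, ?_, ?_, ?_⟩
  · rintro _ ⟨f, hf, g, hg, h, rfl⟩
    exact h
  · intro x y hxy
    obtain ⟨f, hf, g, hg, hfx, hgy, hfg⟩ := hA.box (hA.ret_mem x) (hA.ret_mem y)
      (isOpen_sUnion hO) (hA.decAsk hA.one_mem hA.one_mem (hS.mem 1 1)) hxy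
    obtain ⟨G, hG, hxyG, hGa⟩ := hS.sub f g hfg (ret A x, ret A y) hfx hgy
    obtain ⟨f', hf', g', hg', hfx', hgy', hfg'⟩ := hA.box (hA.ret_mem x) (hA.ret_mem y)
      (hO G hG) (hA.decAsk hf hg hGa) hxyG
    refine ⟨_, ⟨f', hf', g', hg', ⟨G, hG, hfg'⟩, rfl⟩, ?_, ?_⟩
    · rwa [hA.ret_eq x hf'] at hfx'
    · rwa [hA.ret_eq y hg'] at hgy'
  · intro z s
    obtain ⟨p, hp⟩ := exists_match S.cls s
    refine ⟨p, hp, ?_⟩
    cases p with
    | leaf k =>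
      apply Set.Subsingleton.finite
      rintro _ ⟨⟨f, hf, g, hg, -, rfl⟩, -, h1⟩ _ ⟨⟨f', hf', g', hg', -, rfl⟩, -, h2⟩
      have h1 : enc (f, g) = k := h1
      have h2 : enc (f', g') = k := h2
      have h3 := henc (show (f, g) ∈ Fn A ×ˢ Fn A from ⟨hf, hg⟩)
        (show (f', g') ∈ Fn A ×ˢ Fn A from ⟨hf', hg'⟩) (h1.trans h2.symm)
      rw [Prod.mk.injEq] at h3
      rw [h3.1, h3.2]
    | pair k p q =>
      refine Set.finite_empty.subset ?_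
      rintro _ ⟨⟨f, hf, g, hg, -, rfl⟩, -, h1⟩
      exact h1.elim
    | node k m p q =>
      refine Set.finite_empty.subset ?_
      rintro _ ⟨⟨f, hf, g, hg, -, rfl⟩, -, h1⟩
      exact h1.elim

theorem fin_pair {S : Sys X} {A : Set (E X)} {O : Set (Set (X × X))} {ι : Type u}
    [LinearOrder ι] (C : Chn S A ι) {P : ι → Set (C(X, ℝ) × Code S.Ω)} (hP : Pcs C P)
    {V : ι → Set (C(X, ℝ) × C(X, ℝ) × Code S.Ω)} (hV : ∀ j, BFam S O (C.M j) (V j)) (k : ℕ)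
    (w : X) (z : X × X)
    (comb : (C(X, ℝ) × C(X, ℝ) × Code S.Ω) → (C(X, ℝ) × Code S.Ω) → C(X, ℝ) × C(X, ℝ))
    (hcomb : ∀ t u, 0 < (comb t u).1 z.1 → 0 < (comb t u).2 z.2 →
      (0 < t.1 z.1 ∧ 0 < t.2.1 z.2) ∧ 0 < u.1 w) :
    FinAt S.cls {v : C(X, ℝ) × C(X, ℝ) × Code S.Ω | ∃ j, ∃ t ∈ V j, ∃ u ∈ P j,
      v = ((comb t u).1, (comb t u).2, .pair k u.2 t.2.2)}
      (fun t z => 0 < t.1 z.1 ∧ 0 < t.2.1 z.2) (fun t => t.2.2) z := by
  intro s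
  cases s with
  | leaf k' =>
    refine ⟨.leaf k', rfl, Set.finite_empty.subset ?_⟩
    rintro _ ⟨⟨j, t, ht, u, hu, rfl⟩, -, h⟩
    exact h.elim
  | node k' W a b =>
    obtain ⟨p, hp⟩ := exists_match S.cls (.node k' W a b)
    refine ⟨p, hp, Set.finite_empty.subset ?_⟩
    rintro _ ⟨⟨j, t, ht, u, hu, rfl⟩, -, h⟩
    cases p with
    | leaf _ => exact hp.elim
    | pair _ _ _ => exact hp.elim
    | node _ _ _ _ => exact h.elim
  | pair k' a b =>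
    obtain ⟨pa, hpa, hTa⟩ := hP.fin w a
    set Ta : Set (ι × (C(X, ℝ) × Code S.Ω)) :=
      {τ | τ ∈ {τ : ι × (C(X, ℝ) × Code S.Ω) | τ.2 ∈ P τ.1} ∧ 0 < τ.2.1 w ∧
        Match S.cls τ.2.2 pa} with hTadef
    obtain ⟨pb, hpb, hpb'⟩ := match_finite S.cls b (Prod.fst '' Ta) (hTa.image _)
      (fun j p => {t | t ∈ V j ∧ (0 < t.1 z.1 ∧ 0 < t.2.1 z.2) ∧ Match S.cls t.2.2 p}.Finite)
      (fun j _ => (hV j).fin z b)
      (fun j p q h hpq => h.subset fun t ht => ⟨ht.1, ht.2.1, hpq _ ht.2.2⟩)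
    refine ⟨.pair k' pa pb, ⟨rfl, hpa, hpb⟩, ?_⟩
    have hbig : (⋃ τ ∈ Ta, (fun t : C(X, ℝ) × C(X, ℝ) × Code S.Ω =>
        (((comb t τ.2).1, (comb t τ.2).2, Code.pair k τ.2.2 t.2.2) :
          C(X, ℝ) × C(X, ℝ) × Code S.Ω)) '' {t | t ∈ V τ.1 ∧ (0 < t.1 z.1 ∧ 0 < t.2.1 z.2) ∧
            Match S.cls t.2.2 pb}).Finite :=
      hTa.biUnion fun τ hτ => (hpb' τ.1 ⟨τ, hτ, rfl⟩).image _
    refine hbig.subset ?_
    rintro _ ⟨⟨j, t, ht, u, hu, rfl⟩, ⟨h1, h2⟩, -, h3, h4⟩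
    obtain ⟨h5, h6⟩ := hcomb t u h1 h2
    exact mem_biUnion (show (j, u) ∈ Ta from ⟨hu, h6, h3⟩) ⟨t, ⟨ht, h5, h4⟩, rfl⟩

theorem bfam_step [CompactSpace X] {S : Sys X} {A : Set (E X)} {O : Set (Set (X × X))}
    (hO : ∀ G ∈ O, IsOpen G) {ι : Type u} [LinearOrder ι] [WellFoundedLT ι] (C : Chn S A ι)
    {P : ι → Set (C(X, ℝ) × Code S.Ω)} (hP : Pcs C P)
    {V : ι → Set (C(X, ℝ) × C(X, ℝ) × Code S.Ω)} (hV : ∀ j, BFam S O (C.M j) (V j))
    {V0 : Set (C(X, ℝ) × C(X, ℝ) × Code S.Ω)} (hV0 : BFam S O C.Z V0) :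
    ∃ V, BFam S O A V := by
  refine ⟨(V0 ∪ {v | ∃ j, ∃ t ∈ V j, ∃ u ∈ P j, v = (t.1 ⊓ u.1, t.2.1, .pair 0 u.2 t.2.2)}) ∪
    {v | ∃ j, ∃ t ∈ V j, ∃ u ∈ P j, v = (t.1, t.2.1 ⊓ u.1, .pair 1 u.2 t.2.2)}, ?_, ?_, ?_⟩
  · rintro v ((hv | ⟨j, t, ht, u, hu, rfl⟩) | ⟨j, t, ht, u, hu, rfl⟩)
    · exact hV0.sub v hv
    · obtain ⟨G, hG, h⟩ := (hV j).sub t ht
      exact ⟨G, hG, fun z h1 h2 => h z (h1.trans_le (inf_le_l _ _ _)) h2⟩
    · obtain ⟨G, hG, h⟩ := (hV j).sub t ht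
      exact ⟨G, hG, fun z h1 h2 => h z h1 (h2.trans_le (inf_le_l _ _ _))⟩
  · intro x y hxy
    rcases C.jumpA (isOpen_sUnion hO) hxy with h | ⟨i, h1, h2⟩
    · obtain ⟨t, ht, h1⟩ := hV0.cov x y h
      exact ⟨t, Or.inl (Or.inl ht), h1⟩
    · obtain ⟨t, ht, htx, hty⟩ := (hV i).cov x y h2
      by_cases hx : ret (C.N i) x = ret (C.M i) x
      · have hy : ret (C.N i) y ≠ ret (C.M i) y := by
          intro hy
          apply h1
          rw [hx, hy]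
          exact h2
        obtain ⟨u, hu, huy⟩ := hP.cov i y hy
        refine ⟨_, Or.inr ⟨i, t, ht, u, hu, rfl⟩, htx, ?_⟩
        simp only [ContinuousMap.inf_apply, lt_inf_iff]
        exact ⟨hty, huy⟩
      · obtain ⟨u, hu, hux⟩ := hP.cov i x hx
        refine ⟨_, Or.inl (Or.inr ⟨i, t, ht, u, hu, rfl⟩), ?_, hty⟩
        simp only [ContinuousMap.inf_apply, lt_inf_iff]
        exact ⟨htx, hux⟩
  · intro z
    apply FinAt.union
    · apply FinAt.union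
      · exact hV0.fin z
      · exact fin_pair C hP hV 0 z.1 z (fun t u => (t.1 ⊓ u.1, t.2.1)) (by
          intro t u h1 h2
          simp only [ContinuousMap.inf_apply, lt_inf_iff] at h1
          exact ⟨⟨h1.1, h2⟩, h1.2⟩)
    · exact fin_pair C hP hV 1 z.2 z (fun t u => (t.1, t.2.1 ⊓ u.1)) (by
          intro t u h1 h2
          simp only [ContinuousMap.inf_apply, lt_inf_iff] at h2
          exact ⟨⟨h1, h2.1⟩, h2.2⟩)

theorem exists_bfam [CompactSpace X] [T2Space X] {S : Sys X} {O : Set (Set (X × X))}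
    (hS : Asks S O) (hO : ∀ G ∈ O, IsOpen G) : ∀ (κ : Cardinal.{u})
    (A : Set (E X)), S.Good A → #A = κ → ∃ V, BFam S O A V := by
  intro κ
  induction κ using WellFoundedLT.induction with
  | _ κ ih =>
    intro A hA hκ
    rcases le_or_gt #A ℵ₀ with hc | hc
    · exact bfam_countable hS hO hA hc
    · obtain ⟨ι, _, _, C, hCM, hCZ⟩ := exists_chn S hA hc
      have h1 : ∀ j, ∃ H, Fam S (C.M j) H := fun j => exists_fam S _ _ (C.goodM j) rfl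
      choose H hH using h1
      obtain ⟨P, hP⟩ := C.exists_pcs H hH
      have h2 : ∀ j, ∃ V, BFam S O (C.M j) V := fun j => ih _ (hκ ▸ hCM j) _ (C.goodM j) rfl
      choose V hV using h2
      obtain ⟨V0, hV0⟩ := ih _ (hκ ▸ hCZ) _ C.goodZ rfl
      exact bfam_step hO C hP hV hV0

theorem hereditary_of_offDiag [CompactSpace X] [T2Space X]
    (h : WeaklySigmaMetacompact {p : X × X // p.1 ≠ p.2}) (Z : Set (X × X)) :
    WeaklySigmaMetacompact Z := by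
  intro U hU hUc
  let O : Set (Set (X × X)) := {G | IsOpen G ∧ ∃ V ∈ U, (Subtype.val : Z → X × X) ⁻¹' G ⊆ V}
  have hO : ∀ G ∈ O, IsOpen G := fun G hG => hG.1
  obtain ⟨S, hS⟩ := exists_asks h O hO
  obtain ⟨V, hV⟩ := exists_bfam hS hO _ univ (good_univ S) rfl
  have hru : ∀ x : X, ret (univ : Set (E X)) x = x := fun x =>
    (good_univ S).ret_of_mem (subset_closure (mem_univ _))
  let bx : (C(X, ℝ) × C(X, ℝ) × Code S.Ω) → Set Z := fun t =>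
    {z | 0 < t.1 z.1.1 ∧ 0 < t.2.1 z.1.2}
  have : Nonempty Pat := ⟨.leaf 0⟩
  obtain ⟨e, he⟩ := exists_surjective_nat Pat
  refine ⟨bx '' V, ?_, ?_, ?_, fun n => {B | ∃ t ∈ V, Match S.cls t.2.2 (e n) ∧ B = bx t},
    ?_, ?_⟩
  · rintro _ ⟨t, ht, rfl⟩
    exact (isOpen_lt continuous_const (t.1.continuous.comp (continuous_fst.comp
      continuous_subtype_val))).inter (isOpen_lt continuous_const
      (t.2.1.continuous.comp (continuous_snd.comp continuous_subtype_val)))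
  · rw [Set.eq_univ_iff_forall]
    intro z
    have hz : z ∈ ⋃₀ U := by
      rw [hUc]
      exact mem_univ _
    obtain ⟨W, hW, hzW⟩ := hz
    obtain ⟨G, hG, rfl⟩ := isOpen_induced_iff.1 (hU W hW)
    obtain ⟨t, ht, h1⟩ := hV.cov z.1.1 z.1.2 (by
      rw [hru, hru]
      exact ⟨G, ⟨hG, _, hW, subset_rfl⟩, hzW⟩)
    exact ⟨_, ⟨t, ht, rfl⟩, h1⟩
  · rintro _ ⟨t, ht, rfl⟩
    obtain ⟨G, ⟨-, W, hW, hGW⟩, h1⟩ := hV.sub t ht
    exact ⟨W, hW, fun z hz => hGW (h1 z.1 hz.1 hz.2)⟩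
  · ext B
    constructor
    · rintro ⟨t, ht, rfl⟩
      obtain ⟨p, hp⟩ := exists_match S.cls t.2.2
      obtain ⟨n, rfl⟩ := he p
      exact mem_iUnion.2 ⟨n, t, ht, hp, rfl⟩
    · intro hB
      obtain ⟨n, t, ht, hp, rfl⟩ := mem_iUnion.1 hB
      exact ⟨t, ht, rfl⟩
  · intro y
    ext B
    constructor
    · rintro ⟨t, ht, rfl⟩
      obtain ⟨p, hp, hf⟩ := hV.fin y.1 t.2.2
      obtain ⟨n, rfl⟩ := he p
      refine mem_biUnion (x := n) ?_ ⟨t, ht, hp, rfl⟩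
      refine (hf.image bx).subset ?_
      rintro _ ⟨⟨t', ht', hp', rfl⟩, hy⟩
      exact ⟨t', ⟨ht', hy, hp'⟩, rfl⟩
    · intro hB
      simp only [mem_iUnion] at hB
      obtain ⟨n, -, t, ht, hp, rfl⟩ := hB
      exact ⟨t, ht, rfl⟩

end Pool.Agent.H60Gulko
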