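import Pool.Agent.H60Gulko.Ret

/-!
# Chains of closed-off sets
-/

set_option autoImplicit false

open Set Cardinal Topology

namespace Pool.Agent.H60Gulko

universe u

variable {X : Type u} [TopologicalSpace X]

/-- A continuous chain of closed-off sets exhausting `A`. -/
structure Chn (S : Sys X) (A : Set (E X)) (ι : Type u) [LinearOrder ι] where
  M : ι → Set (E X)
  N : ι → Set (E X)
  Z : Set (E X)
  goodM : ∀ j, S.Good (M j)
  goodN : ∀ j, S.Good (N j)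
  goodZ : S.Good Z
  ZM : ∀ j, Z ⊆ M j
  MN : ∀ i j, i < j → M i ⊆ N j
  NM : ∀ j, N j ⊆ M j
  Neq : ∀ j, N j = Z ∪ ⋃ i ∈ Iio j, M i
  Aeq : A = Z ∪ ⋃ i ∈ (univ : Set ι), M i

theorem good_union {S : Sys X} {ι : Type*} [LinearOrder ι] {M : ι → Set (E X)} {Z : Set (E X)}
    (hM : ∀ j, S.Good (M j)) (hZ : S.Good Z) (hZM : ∀ j, Z ⊆ M j)
    (hmono : ∀ i j, i ≤ j → M i ⊆ M j) (I : Set ι) : S.Good (Z ∪ ⋃ i ∈ I, M i) := by
  refine ⟨Or.inl hZ.one, ?_⟩
  rcases I.eq_empty_or_nonempty with rfl | ⟨i0, hi0⟩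
  · simpa using hZ.cl
  have key : ∀ a ∈ Z ∪ ⋃ i ∈ I, M i, ∃ i ∈ I, a ∈ M i := by
    rintro a (ha | ha)
    · exact ⟨i0, hi0, hZM _ ha⟩
    · simpa using ha
  intro a ha b hb c hc d hd
  obtain ⟨i1, h1, ha⟩ := key a ha
  obtain ⟨i2, h2, hb⟩ := key b hb
  obtain ⟨i3, h3, hc⟩ := key c hc
  obtain ⟨i4, h4, hd⟩ := key d hd
  obtain ⟨i, hi, hi1, hi2, hi3, hi4⟩ : ∃ i ∈ I, i1 ≤ i ∧ i2 ≤ i ∧ i3 ≤ i ∧ i4 ≤ i := by
    refine ⟨max (max i1 i2) (max i3 i4), ?_, by simp, by simp, by simp, by simp⟩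
    rcases max_choice (max i1 i2) (max i3 i4) with h | h <;> rw [h]
    · rcases max_choice i1 i2 with h | h <;> rw [h] <;> assumption
    · rcases max_choice i3 i4 with h | h <;> rw [h] <;> assumption
  have := (hM i).cl a (hmono _ _ hi1 ha) b (hmono _ _ hi2 hb) c (hmono _ _ hi3 hc) d
    (hmono _ _ hi4 hd)
  refine this.trans ?_
  intro x hx
  exact Or.inr (mem_biUnion hi hx)

theorem exists_chn (S : Sys X) {A : Set (E X)} (hA : S.Good A) (hc : ℵ₀ < #A) :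
    ∃ (ι : Type u) (_ : LinearOrder ι) (_ : WellFoundedLT ι) (C : Chn S A ι),
      (∀ j, #(C.M j) < #A) ∧ #C.Z < #A := by
  let ι := (#A).ord.ToType
  have hι : #ι = #A := mk_ord_toType _
  obtain ⟨e⟩ : Nonempty (ι ≃ A) := Cardinal.eq.1 hι
  have hIio : ∀ j : ι, #(Iio j) < #A := fun j => by
    have h1 := Cardinal.mk_Iio_lt (α := ι) j (by rw [hι]; exact (Ordinal.type_toType _).symm)
    rwa [hι] at h1
  have hIic : ∀ j : ι, #(Iic j) < #A := fun j => by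
    have h1 : Iic j = insert j (Iio j) := by
      ext i
      simp [le_iff_eq_or_lt]
    rw [h1]
    refine mk_insert_le.trans_lt ?_
    exact add_lt_of_lt hc.le (hIio j) (one_lt_aleph0.trans hc)
  let T : Set ι → Set (E X) := fun I => (fun i => (e i : E X)) '' I
  have hT : ∀ I, #(T I) ≤ #I := fun I => mk_image_le
  have hTm : ∀ I I', I ⊆ I' → T I ⊆ T I' := fun I I' h => image_mono h
  have hTA : ∀ I, T I ⊆ A := by
    rintro I _ ⟨i, -, rfl⟩
    exact (e i).2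
  let M : ι → Set (E X) := fun j => S.hull (T (Iic j))
  let N : ι → Set (E X) := fun j => S.hull (T (Iio j))
  let Z : Set (E X) := S.hull ∅
  have hZM : ∀ j, Z ⊆ M j := fun j => S.hull_mono (empty_subset _)
  have hMM : ∀ i j, i ≤ j → M i ⊆ M j := fun i j h => S.hull_mono (hTm _ _ (Iic_subset_Iic.2 h))
  have hgM : ∀ j, S.Good (M j) := fun j => S.good_hull _
  have hgZ : S.Good Z := S.good_hull _
  have hMN : ∀ i j, i < j → M i ⊆ N j := fun i j h =>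
    S.hull_mono (hTm _ _ (Iic_subset_Iio.2 h))
  have hZN : ∀ j, Z ⊆ N j := fun j => S.hull_mono (empty_subset _)
  refine ⟨ι, inferInstance, inferInstance,
    ⟨M, N, Z, hgM, fun j => S.good_hull _, hgZ, hZM, hMN,
      fun j => S.hull_mono (hTm _ _ Iio_subset_Iic_self), ?_, ?_⟩, ?_, ?_⟩
  · intro j
    apply Subset.antisymm
    · apply S.hull_subset (good_union hgM hgZ hZM hMM _)
      rintro _ ⟨i, hi, rfl⟩
      refine Or.inr (mem_biUnion hi ?_)
      exact S.subset_hull _ ⟨i, self_mem_Iic, rfl⟩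
    · apply union_subset (hZN j)
      exact iUnion₂_subset fun i hi => hMN i j hi
  · apply Subset.antisymm
    · intro a ha
      refine Or.inr (mem_biUnion (mem_univ (e.symm ⟨a, ha⟩)) ?_)
      refine S.subset_hull _ ⟨e.symm ⟨a, ha⟩, self_mem_Iic, ?_⟩
      simp
    · apply union_subset (S.hull_subset hA (empty_subset _))
      exact iUnion₂_subset fun i _ => S.hull_subset hA (hTA _)
  · intro j
    refine (S.mk_hull_le _).trans_lt (max_lt hc ?_)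
    exact (hT _).trans_lt (hIic j)
  · refine (S.mk_hull_le _).trans_lt (max_lt hc ?_)
    have h1 : #(∅ : Set (E X)) = 0 := Cardinal.mk_eq_zero _
    rw [h1]
    exact aleph0_pos.trans hc

namespace Chn

variable {S : Sys X} {A : Set (E X)} {ι : Type u} [LinearOrder ι] (C : Chn S A ι)

/-- the union of a part of the chain -/
def B (I : Set ι) : Set (E X) := C.Z ∪ ⋃ i ∈ I, C.M i

theorem MM (i j : ι) (h : i ≤ j) : C.M i ⊆ C.M j := by
  rcases h.eq_or_lt with rfl | h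
  · exact subset_rfl
  · exact (C.MN i j h).trans (C.NM j)

theorem ZN (j : ι) : C.Z ⊆ C.N j := by
  rw [C.Neq j]
  exact subset_union_left

theorem goodB (I : Set ι) : S.Good (C.B I) := good_union C.goodM C.goodZ C.ZM C.MM I

theorem MB {I : Set ι} {i : ι} (hi : i ∈ I) : C.M i ⊆ C.B I := fun _ hx =>
  Or.inr (mem_biUnion hi hx)

theorem limit [CompactSpace X] {I : Set ι} (hI : I.Nonempty) {O : Set (X × X)} (hO : IsOpen O)
    {x y : X} (h : (ret (C.B I) x, ret (C.B I) y) ∈ O) :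
    ∃ i ∈ I, (ret (C.M i) x, ret (C.M i) y) ∈ O := by
  have hB := C.goodB I
  obtain ⟨U, V, hU, hV, hxU, hyV, hUV⟩ := isOpen_prod_iff.1 hO _ _ h
  obtain ⟨f, hf, hf1, hf2⟩ := hB.nbhd (hB.ret_mem x) hU hxU
  obtain ⟨g, hg, hg1, hg2⟩ := hB.nbhd (hB.ret_mem y) hV hyV
  obtain ⟨i0, hi0⟩ := hI
  have key : ∀ a ∈ C.B I, ∃ i ∈ I, a ∈ C.M i := by
    rintro a (ha | ha)
    · exact ⟨i0, hi0, C.ZM _ ha⟩
    · simpa using ha
  obtain ⟨i1, h1, hf'⟩ := key _ hf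
  obtain ⟨i2, h2, hg'⟩ := key _ hg
  obtain ⟨i, hi, hi1, hi2⟩ : ∃ i ∈ I, i1 ≤ i ∧ i2 ≤ i := by
    refine ⟨max i1 i2, ?_, by simp, by simp⟩
    rcases max_choice i1 i2 with h | h <;> rw [h] <;> assumption
  have hcl : closure (Pt (C.M i)) ⊆ closure (Pt (C.B I)) :=
    closure_mono fun p hp => C.MB hi hp
  refine ⟨i, hi, hUV ⟨?_, ?_⟩⟩
  · apply hf2 _ (hcl ((C.goodM i).ret_mem x))
    rw [(C.goodM i).ret_eq x (C.MM _ _ hi1 hf')]
    rwa [hB.ret_eq x hf] at hf1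
  · apply hg2 _ (hcl ((C.goodM i).ret_mem y))
    rw [(C.goodM i).ret_eq y (C.MM _ _ hi2 hg')]
    rwa [hB.ret_eq y hg] at hg1

theorem jump [CompactSpace X] [WellFoundedLT ι] {I : Set ι} (hI : ∀ i ∈ I, ∀ j < i, j ∈ I)
    {O : Set (X × X)} (hO : IsOpen O)
    {x y : X} (h : (ret (C.B I) x, ret (C.B I) y) ∈ O) :
    (ret C.Z x, ret C.Z y) ∈ O ∨ ∃ i ∈ I, (ret (C.N i) x, ret (C.N i) y) ∉ O ∧
      (ret (C.M i) x, ret (C.M i) y) ∈ O := by
  rcases I.eq_empty_or_nonempty with rfl | hne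
  · left
    simpa [B] using h
  obtain ⟨i1, hi1, hi1'⟩ := C.limit hne hO h
  obtain ⟨i, ⟨hi, hi'⟩, hmin⟩ := WellFounded.has_min (wellFounded_lt (α := ι))
    {i | i ∈ I ∧ (ret (C.M i) x, ret (C.M i) y) ∈ O} ⟨i1, hi1, hi1'⟩
  by_cases hN : (ret (C.N i) x, ret (C.N i) y) ∈ O
  · left
    have e1 : C.N i = C.B (Iio i) := C.Neq i
    rw [e1] at hN
    rcases (Iio i).eq_empty_or_nonempty with he | hne'
    · rw [he] at hN
      simpa [B] using hN
    · obtain ⟨j, hj, hj'⟩ := C.limit hne' hO hN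
      exact absurd hj (hmin j ⟨hI i hi j hj, hj'⟩)
  · exact Or.inr ⟨i, hi, hN, hi'⟩

theorem jumpA [CompactSpace X] [WellFoundedLT ι] {O : Set (X × X)} (hO : IsOpen O)
    {x y : X} (h : (ret A x, ret A y) ∈ O) :
    (ret C.Z x, ret C.Z y) ∈ O ∨ ∃ i, (ret (C.N i) x, ret (C.N i) y) ∉ O ∧
      (ret (C.M i) x, ret (C.M i) y) ∈ O := by
  have e1 : A = C.B univ := C.Aeq
  have h' : (ret (C.B univ) x, ret (C.B univ) y) ∈ O := by
    rw [← e1]
    exact h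
  rcases C.jump (I := univ) (fun _ _ _ _ => mem_univ _) hO h' with h1 | ⟨i, -, h1, h2⟩
  · exact Or.inl h1
  · exact Or.inr ⟨i, h1, h2⟩

theorem jumpN [CompactSpace X] [WellFoundedLT ι] {O : Set (X × X)} (hO : IsOpen O)
    {x y : X} {j : ι} (h : (ret (C.N j) x, ret (C.N j) y) ∈ O) :
    (ret C.Z x, ret C.Z y) ∈ O ∨ ∃ i < j, (ret (C.N i) x, ret (C.N i) y) ∉ O ∧
      (ret (C.M i) x, ret (C.M i) y) ∈ O := by
  have e1 : C.N j = C.B (Iio j) := C.Neq j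
  rw [e1] at h
  rcases C.jump (I := Iio j) (fun i hi k hk => lt_trans hk hi) hO h with h1 | ⟨i, h0, h1, h2⟩
  · exact Or.inl h1
  · exact Or.inr ⟨i, h0, h1, h2⟩

/-- a member of the system jumping at level `j` -/
def Jmp (W : S.Ω) (j : ι) : Prop := S.Meets (C.M j) W ∧ ¬ S.Meets (C.N j) W

theorem Jmp.eq {W : S.Ω} {i j : ι} (hi : C.Jmp W i) (hj : C.Jmp W j) : i = j := by
  rcases lt_trichotomy i j with h | h | h
  · exact absurd (hi.1.mono (C.MN i j h)) hj.2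
  · exact h
  · exact absurd (hj.1.mono (C.MN j i h)) hi.2

theorem exists_jmp [CompactSpace X] {x : X} {j : ι} (h : ret (C.N j) x ≠ ret (C.M j) x) :
    ∃ W, C.Jmp W j ∧ (ret (C.N j) x, ret (C.M j) x) ∈ S.w W := by
  obtain ⟨W, hW⟩ := S.cover _ _ h
  have hcl : closure (Pt (C.N j)) ⊆ closure (Pt (C.M j)) :=
    closure_mono fun p hp => C.NM j hp
  refine ⟨W, ⟨meets_of_mem (hcl ((C.goodN j).ret_mem x)) ((C.goodM j).ret_mem x) hW, ?_⟩, hW⟩
  intro hN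
  have hφ := (C.goodN j).phi hN
  apply S.sep W _ _ hW
  rw [(C.goodN j).ret_eq x hφ, (C.goodM j).ret_eq x (C.NM j hφ)]

end Chn

end Pool.Agent.H60Gulko
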