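import Pool.Agent.H60Gulko.Defs

/-!
# A closure operator with countable requirements
-/

set_option autoImplicit false

open Set Cardinal

namespace Pool.Agent.H60Gulko

universe u

section
variable {E : Type u} (R : E → E → E → E → Set E)

/-- one step of the closing-off process -/
def stp (T : Set E) : Set E := T ∪ ⋃ t : T × T × T × T, R t.1 t.2.1 t.2.2.1 t.2.2.2

/-- closed sets -/
def Clsd (A : Set E) : Prop := ∀ a ∈ A, ∀ b ∈ A, ∀ c ∈ A, ∀ d ∈ A, R a b c d ⊆ A

theorem stp_mono {S T : Set E} (h : S ⊆ T) : stp R S ⊆ stp R T := by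
  rintro e (he | he)
  · exact Or.inl (h he)
  · obtain ⟨⟨a, b, c, d⟩, ht⟩ := mem_iUnion.1 he
    exact Or.inr (mem_iUnion.2 ⟨(⟨a.1, h a.2⟩, ⟨b.1, h b.2⟩, ⟨c.1, h c.2⟩, ⟨d.1, h d.2⟩), ht⟩)

/-- the stages of the closing-off process -/
def stg (S : Set E) : ℕ → Set E
  | 0 => S
  | n + 1 => stp R (stg S n)

theorem stg_le (S : Set E) {m n : ℕ} (h : m ≤ n) : stg R S m ⊆ stg R S n := by
  induction h with
  | refl => exact subset_rfl
  | step _ ih => exact ih.trans subset_union_left

/-- the closure -/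
def clo (S : Set E) : Set E := ⋃ n, stg R S n

theorem subset_clo (S : Set E) : S ⊆ clo R S := subset_iUnion (stg R S) 0

theorem clsd_clo (S : Set E) : Clsd R (clo R S) := by
  intro a ha b hb c hc d hd e he
  obtain ⟨na, ha⟩ := mem_iUnion.1 ha
  obtain ⟨nb, hb⟩ := mem_iUnion.1 hb
  obtain ⟨nc, hc⟩ := mem_iUnion.1 hc
  obtain ⟨nd, hd⟩ := mem_iUnion.1 hd
  have ha' := stg_le R S (show na ≤ na + nb + nc + nd by omega) ha
  have hb' := stg_le R S (show nb ≤ na + nb + nc + nd by omega) hb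
  have hc' := stg_le R S (show nc ≤ na + nb + nc + nd by omega) hc
  have hd' := stg_le R S (show nd ≤ na + nb + nc + nd by omega) hd
  refine mem_iUnion.2 ⟨na + nb + nc + nd + 1, Or.inr ?_⟩
  exact mem_iUnion.2 ⟨(⟨a, ha'⟩, ⟨b, hb'⟩, ⟨c, hc'⟩, ⟨d, hd'⟩), he⟩

theorem clo_subset {S A : Set E} (hA : Clsd R A) (h : S ⊆ A) : clo R S ⊆ A := by
  have key : ∀ n, stg R S n ⊆ A := by
    intro n
    induction n with
    | zero => exact h
    | succ n ih =>
      rintro e (he | he)
      · exact ih he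
      · obtain ⟨⟨a, b, c, d⟩, ht⟩ := mem_iUnion.1 he
        exact hA _ (ih a.2) _ (ih b.2) _ (ih c.2) _ (ih d.2) ht
  exact iUnion_subset key

theorem clo_mono {S T : Set E} (h : S ⊆ T) : clo R S ⊆ clo R T :=
  clo_subset R (clsd_clo R T) (h.trans (subset_clo R T))

theorem mk_clo_le (hR : ∀ a b c d, (R a b c d).Countable) (S : Set E) :
    #(clo R S) ≤ max ℵ₀ #S := by
  have hκ : ℵ₀ ≤ max ℵ₀ #S := le_max_left _ _
  have key : ∀ n, #(stg R S n) ≤ max ℵ₀ #S := by
    intro n
    induction n with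
    | zero => exact le_max_right _ _
    | succ n ih =>
      have h1 : #(⋃ t : stg R S n × stg R S n × stg R S n × stg R S n,
          R t.1 t.2.1 t.2.2.1 t.2.2.2 : Set E) ≤ max ℵ₀ #S := by
        refine (Cardinal.mk_iUnion_le _).trans ?_
        refine Cardinal.mul_le_of_le hκ ?_ ?_
        · simp only [Cardinal.mk_prod, Cardinal.lift_id]
          exact Cardinal.mul_le_of_le hκ ih (Cardinal.mul_le_of_le hκ ih
            (Cardinal.mul_le_of_le hκ ih ih))
        · refine ciSup_le' fun t => ?_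
          exact (Cardinal.le_aleph0_iff_set_countable.2 (hR _ _ _ _)).trans hκ
      exact (Cardinal.mk_union_le _ _).trans (Cardinal.add_le_of_le hκ ih h1)
  have h2 := Cardinal.mk_iUnion_le_lift (stg R S)
  rw [Cardinal.lift_uzero] at h2
  refine h2.trans ?_
  refine Cardinal.mul_le_of_le hκ ?_ ?_
  · simp
  · exact ciSup_le' fun n => by simpa using key n

end

end Pool.Agent.H60Gulko
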