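import Pool.Agent.H60Gulko.Defs

/-!
# Codes and patterns
-/

set_option autoImplicit false

open Set

namespace Pool.Agent.H60Gulko

universe u

/-- codes: finite binary trees labelled by natural numbers and elements of `Ω` -/
inductive Code (Ω : Type u) : Type u
  | leaf (k : ℕ) : Code Ω
  | pair (k : ℕ) (a b : Code Ω) : Code Ω
  | node (k : ℕ) (W : Ω) (a b : Code Ω) : Code Ω

/-- patterns: the basic neighbourhoods of codes -/
inductive Pat : Type
  | leaf (k : ℕ) : Pat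
  | pair (k : ℕ) (a b : Pat) : Pat
  | node (k : ℕ) (m : Finset ℕ) (a b : Pat) : Pat
deriving Countable

variable {Ω : Type u} (cls : Ω → Set ℕ)

/-- a code matches a pattern -/
def Match : Code Ω → Pat → Prop
  | .leaf k, .leaf k' => k = k'
  | .pair k a b, .pair k' p q => k = k' ∧ Match a p ∧ Match b q
  | .node k W a b, .node k' m p q => k = k' ∧ (m : Set ℕ) ⊆ cls W ∧ Match a p ∧ Match b q
  | _, _ => False

theorem exists_match (s : Code Ω) : ∃ p, Match cls s p := by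
  induction s with
  | leaf k => exact ⟨.leaf k, rfl⟩
  | pair k a b iha ihb =>
    obtain ⟨p, hp⟩ := iha
    obtain ⟨q, hq⟩ := ihb
    exact ⟨.pair k p q, rfl, hp, hq⟩
  | node k W a b iha ihb =>
    obtain ⟨p, hp⟩ := iha
    obtain ⟨q, hq⟩ := ihb
    exact ⟨.node k ∅ p q, rfl, by simp, hp, hq⟩

theorem match_inf (s : Code Ω) : ∀ p p', Match cls s p → Match cls s p' →
    ∃ q, Match cls s q ∧ ∀ c, Match cls c q → Match cls c p ∧ Match cls c p' := by
  induction s with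
  | leaf k =>
    intro p p' hp hp'
    rcases p with k1 | ⟨k1, a1, b1⟩ | ⟨k1, m1, a1, b1⟩ <;> try exact hp.elim
    rcases p' with k2 | ⟨k2, a2, b2⟩ | ⟨k2, m2, a2, b2⟩ <;> try exact hp'.elim
    obtain rfl : k = k1 := hp
    obtain rfl : k = k2 := hp'
    exact ⟨.leaf k, rfl, fun c hc => ⟨hc, hc⟩⟩
  | pair k a b iha ihb =>
    intro p p' hp hp'
    rcases p with k1 | ⟨k1, a1, b1⟩ | ⟨k1, m1, a1, b1⟩ <;> try exact hp.elim
    rcases p' with k2 | ⟨k2, a2, b2⟩ | ⟨k2, m2, a2, b2⟩ <;> try exact hp'.elim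
    obtain ⟨rfl, h1, h2⟩ := hp
    obtain ⟨rfl, h3, h4⟩ := hp'
    obtain ⟨q1, hq1, hq1'⟩ := iha _ _ h1 h3
    obtain ⟨q2, hq2, hq2'⟩ := ihb _ _ h2 h4
    refine ⟨.pair k q1 q2, ⟨rfl, hq1, hq2⟩, fun c hc => ?_⟩
    rcases c with k3 | ⟨k3, a3, b3⟩ | ⟨k3, m3, a3, b3⟩ <;> try exact hc.elim
    obtain ⟨rfl, h5, h6⟩ := hc
    exact ⟨⟨rfl, (hq1' _ h5).1, (hq2' _ h6).1⟩, rfl, (hq1' _ h5).2, (hq2' _ h6).2⟩
  | node k W a b iha ihb =>
    intro p p' hp hp'
    rcases p with k1 | ⟨k1, a1, b1⟩ | ⟨k1, m1, a1, b1⟩ <;> try exact hp.elim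
    rcases p' with k2 | ⟨k2, a2, b2⟩ | ⟨k2, m2, a2, b2⟩ <;> try exact hp'.elim
    obtain ⟨rfl, hm1, h1, h2⟩ := hp
    obtain ⟨rfl, hm2, h3, h4⟩ := hp'
    obtain ⟨q1, hq1, hq1'⟩ := iha _ _ h1 h3
    obtain ⟨q2, hq2, hq2'⟩ := ihb _ _ h2 h4
    refine ⟨.node k (m1 ∪ m2) q1 q2, ⟨rfl, ?_, hq1, hq2⟩, fun c hc => ?_⟩
    · rw [Finset.coe_union]
      exact union_subset hm1 hm2
    rcases c with k3 | ⟨k3, a3, b3⟩ | ⟨k3, m3, a3, b3⟩ <;> try exact hc.elim
    obtain ⟨rfl, h7, h5, h6⟩ := hc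
    rw [Finset.coe_union, union_subset_iff] at h7
    exact ⟨⟨rfl, h7.1, (hq1' _ h5).1, (hq2' _ h6).1⟩, rfl, h7.2, (hq1' _ h5).2, (hq2' _ h6).2⟩

theorem match_finite {ι : Type*} (s : Code Ω) (J : Set ι) (hJ : J.Finite) (P : ι → Pat → Prop)
    (h : ∀ j ∈ J, ∃ p, Match cls s p ∧ P j p)
    (hP : ∀ j p q, P j p → (∀ c, Match cls c q → Match cls c p) → P j q) :
    ∃ p, Match cls s p ∧ ∀ j ∈ J, P j p := by
  induction J, hJ using Set.Finite.induction_on with
  | empty =>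
    obtain ⟨p, hp⟩ := exists_match cls s
    exact ⟨p, hp, by simp⟩
  | @insert j J hj hJ ih =>
    obtain ⟨p, hp, hp'⟩ := ih fun i hi => h i (mem_insert_of_mem _ hi)
    obtain ⟨q, hq, hq'⟩ := h j (mem_insert _ _)
    obtain ⟨r, hr, hr'⟩ := match_inf cls s p q hp hq
    refine ⟨r, hr, ?_⟩
    rintro i (rfl | hi)
    · exact hP _ q r hq' fun c hc => (hr' c hc).2
    · exact hP _ p r (hp' i hi) fun c hc => (hr' c hc).1

/-- A family of functions with codes satisfies the finiteness condition at all points: for every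
point and every code, there is a pattern of the code such that only finitely many members of the
family whose code matches the pattern are positive at the point. -/
def FinAt {Z T : Type*} (H : Set T) (pos : T → Z → Prop) (code : T → Code Ω) (z : Z) : Prop :=
  ∀ s : Code Ω, ∃ p : Pat, Match cls s p ∧ {t | t ∈ H ∧ pos t z ∧ Match cls (code t) p}.Finite

theorem FinAt.union {Z T : Type*} {H H' : Set T} {pos : T → Z → Prop} {code : T → Code Ω} {z : Z}
    (h : FinAt cls H pos code z) (h' : FinAt cls H' pos code z) :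
    FinAt cls (H ∪ H') pos code z := by
  intro s
  obtain ⟨p, hp, hf⟩ := h s
  obtain ⟨p', hp', hf'⟩ := h' s
  obtain ⟨q, hq, hq'⟩ := match_inf cls s p p' hp hp'
  refine ⟨q, hq, (hf.union hf').subset ?_⟩
  rintro t ⟨h1 | h1, h2, h3⟩
  · exact Or.inl ⟨h1, h2, (hq' _ h3).1⟩
  · exact Or.inr ⟨h1, h2, (hq' _ h3).2⟩

end Pool.Agent.H60Gulko
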