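import Mathlib

/-!
# Weakly sigma-metacompact spaces and Lindelof Sigma-spaces

Basic definitions for the questions of Gruenhage on Gul'ko compact spaces.
-/

set_option autoImplicit false

open Set

namespace Pool.Agent.H60Gulko

universe u

/-- A family `A` of subsets of `Y` is weakly σ-point-finite if it is a union of countably many
families `S n` such that for every point `y` the family `A` is the union of those `S n` of which
only finitely many members contain `y`. -/
def WeaklySigmaPointFinite {Y : Type u} (A : Set (Set Y)) : Prop :=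
  ∃ S : ℕ → Set (Set Y), A = ⋃ n, S n ∧
    ∀ y : Y, A = ⋃ n ∈ {n : ℕ | {B | B ∈ S n ∧ y ∈ B}.Finite}, S n

/-- A space is weakly σ-metacompact if every open cover has a weakly σ-point-finite open
refinement. -/
def WeaklySigmaMetacompact (Y : Type u) [TopologicalSpace Y] : Prop :=
  ∀ U : Set (Set Y), (∀ V ∈ U, IsOpen V) → ⋃₀ U = Set.univ →
    ∃ R : Set (Set Y), (∀ V ∈ R, IsOpen V) ∧ ⋃₀ R = Set.univ ∧ (∀ V ∈ R, ∃ W ∈ U, V ⊆ W) ∧
      WeaklySigmaPointFinite R

/-- A space is a Lindelof Σ-space if there are a countable family `N` of subsets and a cover `C`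
by compact sets such that whenever a member `K` of `C` lies in an open set `U`, some member of `N`
lies between `K` and `U`. -/
def LindelofSigma (Y : Type u) [TopologicalSpace Y] : Prop :=
  ∃ N C : Set (Set Y), N.Countable ∧ (∀ K ∈ C, IsCompact K) ∧ ⋃₀ C = Set.univ ∧
    ∀ K ∈ C, ∀ U : Set Y, IsOpen U → K ⊆ U → ∃ M ∈ N, K ⊆ M ∧ M ⊆ U

end Pool.Agent.H60Gulko
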