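import Pool.Agent.H60Gulko.Pieces

/-!
# Coded families of functions for all closed-off sets
-/

set_option autoImplicit false

open Set Cardinal Topology

namespace Pool.Agent.H60Gulko

universe u

variable {X : Type u} [TopologicalSpace X]

theorem fam_countable [CompactSpace X] {S : Sys X} {A : Set (E X)} (hA : S.Good A)
    (hc : #A ≤ ℵ₀) : ∃ H, Fam S A H := by
  have hF : (Fn A).Countable := by
    have h1 : A.Countable := Cardinal.le_aleph0_iff_set_countable.1 hc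
    exact h1.preimage Sum.inr_injective
  obtain ⟨enc, henc⟩ := Set.countable_iff_exists_injOn.1 hF
  refine ⟨(fun f => (f, .leaf (enc f))) '' Fn A, ?_, ?_, ?_⟩
  · have one : ∀ x y, ∀ f ∈ Fn A, f x < f y → ∃ t ∈ (fun f => ((f, .leaf (enc f)) :
        C(X, ℝ) × Code S.Ω)) '' Fn A, 0 < t.1 y ∧ t.1 x ≤ 0 := by
      intro x y f hf h
      obtain ⟨r, hr1, hr2⟩ := exists_rat_btwn h
      refine ⟨_, ⟨_, hA.sub_const hf r, rfl⟩, ?_, ?_⟩
      · simpa using hr2
      · simpa using hr1.le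
    intro x y hxy
    rw [Ne, hA.ret_eq_ret_iff] at hxy
    push Not at hxy
    obtain ⟨f, hf, hne⟩ := hxy
    rcases lt_or_gt_of_ne hne with h | h
    · obtain ⟨t, ht, h1⟩ := one x y f hf h
      exact ⟨t, ht, Or.inr h1⟩
    · obtain ⟨t, ht, h1⟩ := one y x f hf h
      exact ⟨t, ht, Or.inl h1⟩
  · intro x s
    obtain ⟨p, hp⟩ := exists_match S.cls s
    refine ⟨p, hp, ?_⟩
    cases p with
    | leaf k =>
      apply Set.Subsingleton.finite
      rintro _ ⟨⟨f, hf, rfl⟩, -, h1⟩ _ ⟨⟨g, hg, rfl⟩, -, h2⟩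
      have h1 : enc f = k := h1
      have h2 : enc g = k := h2
      have := henc hf hg (h1.trans h2.symm)
      rw [this]
    | pair k p q =>
      refine Set.finite_empty.subset ?_
      rintro _ ⟨⟨f, hf, rfl⟩, -, h1⟩
      exact h1.elim
    | node k m p q =>
      refine Set.finite_empty.subset ?_
      rintro _ ⟨⟨f, hf, rfl⟩, -, h1⟩
      exact h1.elim
  · rintro _ ⟨f, hf, rfl⟩ x
    exact hA.ret_eq x hf

theorem fam_step [CompactSpace X] [T2Space X] {S : Sys X} {A : Set (E X)} (hA : S.Good A)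
    {ι : Type u} [LinearOrder ι] [WellFoundedLT ι] (C : Chn S A ι)
    {P : ι → Set (C(X, ℝ) × Code S.Ω)} (hP : Pcs C P) {H : Set (C(X, ℝ) × Code S.Ω)}
    (hH : Fam S C.Z H) : Fam S A (H ∪ ⋃ j, P j) := by
  have hZA : C.Z ⊆ A := by
    intro a ha
    rw [C.Aeq]
    exact Or.inl ha
  have hMA : ∀ j, C.M j ⊆ A := by
    intro j a ha
    rw [C.Aeq]
    exact Or.inr (mem_biUnion (mem_univ j) ha)
  refine ⟨?_, ?_, ?_⟩
  · intro x y hxy
    have hO : IsOpen {z : X × X | z.1 ≠ z.2} := isOpen_ne_fun continuous_fst continuous_snd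
    rcases C.jumpA hO (x := x) (y := y) hxy with h | ⟨i, h1, h2⟩
    · obtain ⟨t, ht, h1⟩ := hH.sep x y h
      exact ⟨t, Or.inl ht, h1⟩
    · obtain ⟨t, ht, h3⟩ := hP.sep i x y (not_not.1 h1) h2
      exact ⟨t, Or.inr (mem_iUnion.2 ⟨i, ht⟩), h3⟩
  · intro x
    apply FinAt.union
    · exact hH.fin x
    · intro s
      obtain ⟨p, hp, hf⟩ := hP.fin x s
      refine ⟨p, hp, (hf.image Prod.snd).subset ?_⟩
      rintro t ⟨h1, h2, h3⟩
      obtain ⟨j, hj⟩ := mem_iUnion.1 h1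
      exact ⟨(j, t), ⟨hj, h2, h3⟩, rfl⟩
  · rintro t (ht | ht) x
    · have h1 := hH.inv t ht (ret A x)
      rw [C.goodZ.ret_ret hA hZA] at h1
      rw [← h1]
      exact hH.inv t ht x
    · obtain ⟨j, hj⟩ := mem_iUnion.1 ht
      have h1 := hP.inv j t hj (ret A x)
      rw [(C.goodM j).ret_ret hA (hMA j)] at h1
      rw [← h1]
      exact hP.inv j t hj x

theorem exists_fam [CompactSpace X] [T2Space X] (S : Sys X) : ∀ (κ : Cardinal.{u})
    (A : Set (E X)), S.Good A → #A = κ → ∃ H, Fam S A H := by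
  intro κ
  induction κ using WellFoundedLT.induction with
  | _ κ ih =>
    intro A hA hκ
    rcases le_or_gt #A ℵ₀ with hc | hc
    · exact fam_countable hA hc
    · obtain ⟨ι, _, _, C, hCM, hCZ⟩ := exists_chn S hA hc
      have h1 : ∀ j, ∃ H, Fam S (C.M j) H := fun j =>
        ih _ (hκ ▸ hCM j) _ (C.goodM j) rfl
      choose H hH using h1
      obtain ⟨P, hP⟩ := C.exists_pcs H hH
      obtain ⟨H0, hH0⟩ := ih _ (hκ ▸ hCZ) _ C.goodZ rfl
      exact ⟨_, fam_step hA C hP hH0⟩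

end Pool.Agent.H60Gulko
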