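import Pool.Agent.H60Gulko.Step

/-!
# The pieces attached to the levels of a chain
-/

set_option autoImplicit false

open Set Cardinal Topology

namespace Pool.Agent.H60Gulko

universe u

variable {X : Type u} [TopologicalSpace X]

/-- a coded family of functions attached to a closed-off set -/
structure Fam (S : Sys X) (A : Set (E X)) (H : Set (C(X, ℝ) × Code S.Ω)) : Prop where
  sep : ∀ x y, ret A x ≠ ret A y → ∃ t ∈ H, (0 < t.1 x ∧ t.1 y ≤ 0) ∨ (0 < t.1 y ∧ t.1 x ≤ 0)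
  fin : ∀ x, FinAt S.cls H (fun t x => 0 < t.1 x) (fun t => t.2) x
  inv : ∀ t ∈ H, ∀ x, t.1 (ret A x) = t.1 x

/-- coded families of pieces attached to the levels of a chain -/
structure Pcs {S : Sys X} {A : Set (E X)} {ι : Type u} [LinearOrder ι] (C : Chn S A ι)
    (P : ι → Set (C(X, ℝ) × Code S.Ω)) : Prop where
  cov : ∀ i x, ret (C.N i) x ≠ ret (C.M i) x → ∃ t ∈ P i, 0 < t.1 x
  inv : ∀ i, ∀ t ∈ P i, ∀ x, t.1 (ret (C.M i) x) = t.1 x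
  sep : ∀ i x y, ret (C.N i) x = ret (C.N i) y → ret (C.M i) x ≠ ret (C.M i) y →
    ∃ t ∈ P i, (0 < t.1 x ∧ t.1 y ≤ 0) ∨ (0 < t.1 y ∧ t.1 x ≤ 0)
  fin : ∀ x, FinAt S.cls {τ : ι × (C(X, ℝ) × Code S.Ω) | τ.2 ∈ P τ.1}
    (fun τ x => 0 < τ.2.1 x) (fun τ => τ.2.2) x

/-- the difference functions -/
noncomputable def Dfun (f f' : C(X, ℝ)) (σ : Bool) (q : ℚ) : C(X, ℝ) :=
  if σ then (ContinuousMap.const X (q : ℝ) - f') ⊓ (f - ContinuousMap.const X (q : ℝ))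
  else (ContinuousMap.const X (q : ℝ) - f) ⊓ (f' - ContinuousMap.const X (q : ℝ))

theorem Dfun_true {f f' : C(X, ℝ)} {q : ℚ} {x : X} :
    0 < Dfun f f' true q x ↔ f' x < q ∧ (q : ℝ) < f x := by
  simp [Dfun]

theorem Dfun_false {f f' : C(X, ℝ)} {q : ℚ} {x : X} :
    0 < Dfun f f' false q x ↔ f x < q ∧ (q : ℝ) < f' x := by
  simp [Dfun]

theorem Dfun_congr {f f' : C(X, ℝ)} {σ : Bool} {q : ℚ} {x y : X} (h : f x = f y)
    (h' : f' x = f' y) : Dfun f f' σ q x = Dfun f f' σ q y := by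
  cases σ <;> simp [Dfun, h, h']

theorem Dfun_ne {f f' : C(X, ℝ)} {σ : Bool} {q : ℚ} {x : X} (h : 0 < Dfun f f' σ q x) :
    f x ≠ f' x := by
  cases σ
  · rw [Dfun_false] at h
    exact (h.1.trans h.2).ne
  · rw [Dfun_true] at h
    exact (h.1.trans h.2).ne'

theorem Dfun_pos {f f' : C(X, ℝ)} {σ : Bool} {q : ℚ} {x : X} (h : 0 < Dfun f f' σ q x)
    (hq : 0 < q) : 0 < f x ∨ 0 < f' x := by
  have hq' : (0 : ℝ) < q := by exact_mod_cast hq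
  cases σ
  · rw [Dfun_false] at h
    exact Or.inr (hq'.trans h.2)
  · rw [Dfun_true] at h
    exact Or.inl (hq'.trans h.2)

namespace Chn

variable {S : Sys X} {A : Set (E X)} {ι : Type u} [LinearOrder ι] (C : Chn S A ι)

/-- the difference functions at a level -/
noncomputable def DD [CompactSpace X] (j : ι) (f : C(X, ℝ)) (σ : Bool) (q : ℚ) : C(X, ℝ) :=
  Dfun f (f.comp (retC (C.goodN j))) σ q

theorem level [CompactSpace X] [WellFoundedLT ι] (enc : Bool × ℚ × ℕ → ℕ)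
    (H : Set (C(X, ℝ) × Code S.Ω)) (j : ι) (hH : Fam S (C.M j) H)
    (P : (i : ι) → i < j → Set (C(X, ℝ) × Code S.Ω))
    (hcov : ∀ i (hi : i < j), ∀ x, ret (C.N i) x ≠ ret (C.M i) x → ∃ t ∈ P i hi, 0 < t.1 x)
    (hinv : ∀ i (hi : i < j), ∀ t ∈ P i hi, ∀ x, t.1 (ret (C.M i) x) = t.1 x) :
    ∃ b : Set (C(X, ℝ) × Code S.Ω),
      ((∀ x, ret (C.N j) x ≠ ret (C.M j) x → ∃ t ∈ b, 0 < t.1 x) ∧
        (∀ t ∈ b, ∀ x, t.1 (ret (C.M j) x) = t.1 x)) ∧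
      (∀ t ∈ H, ∀ σ q, 0 < q → ∀ x, 0 < C.DD j t.1 σ q x →
        ∃ u ∈ b, 0 < u.1 x ∧ ∀ y, 0 < u.1 y → 0 < C.DD j t.1 σ q y) ∧
      ∃ F : (C(X, ℝ) × Code S.Ω) → (Bool × ℚ × ℕ) → Set (C(X, ℝ) × S.Ω × Code S.Ω),
        (∀ t k, (F t k).Finite) ∧
        (∀ u ∈ b, ∃ t ∈ H, ∃ k, ∃ v ∈ F t k, u = (v.1, .node (enc k) v.2.1 t.2 v.2.2)) ∧
        (∀ t k, ∀ v ∈ F t k, C.Jmp v.2.1 j ∧ ∀ x, 0 < v.1 x →
          (0 < t.1 x ∨ 0 < t.1 (ret (C.N j) x)) ∧ ((ret C.Z x, x) ∈ S.w v.2.1 ∨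
            ∃ (i : ι) (hi : i < j) (h₂ : C(X, ℝ)), (h₂, v.2.2) ∈ P i hi ∧ 0 < h₂ x ∧
              (ret (C.M i) x, x) ∈ S.w v.2.1)) := by
  have hM := C.goodM j
  have hN := C.goodN j
  have key : ∀ (t : C(X, ℝ) × Code S.Ω) (k : Bool × ℚ × ℕ),
      ∃ F : Set (C(X, ℝ) × S.Ω × Code S.Ω), F.Finite ∧
      (∀ v ∈ F, (C.Jmp v.2.1 j ∧ (∀ x, v.1 (ret (C.M j) x) = v.1 x) ∧
        ∀ x, 0 < v.1 x → 0 < C.DD j t.1 k.1 k.2.1 x ∧ ((ret C.Z x, x) ∈ S.w v.2.1 ∨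
          ∃ (i : ι) (hi : i < j) (h₂ : C(X, ℝ)), (h₂, v.2.2) ∈ P i hi ∧ 0 < h₂ x ∧
            (ret (C.M i) x, x) ∈ S.w v.2.1)) ∧ 0 < k.2.1) ∧
      (t ∈ H → 0 < k.2.1 → ∀ x, 1 / ((k.2.2 : ℝ) + 1) ≤ C.DD j t.1 k.1 k.2.1 x →
        ∃ v ∈ F, 0 < v.1 x) := by
    intro t k
    by_cases h : t ∈ H ∧ 0 < k.2.1
    · obtain ⟨F, hF1, hF2, hF3⟩ := C.exists_pieces j P hcov hinv (C.DD j t.1 k.1 k.2.1) (by
        intro x
        refine Dfun_congr (hH.inv t h.1 x) ?_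
        show t.1 (ret (C.N j) (ret (C.M j) x)) = t.1 (ret (C.N j) x)
        rw [hN.ret_ret hM (C.NM j)]) (by
        intro x hx he
        apply Dfun_ne hx
        show t.1 x = t.1 (ret (C.N j) x)
        rw [he, hH.inv t h.1 x]) (1 / ((k.2.2 : ℝ) + 1)) (by positivity)
      exact ⟨F, hF1, fun v hv => ⟨hF2 v hv, h.2⟩, fun _ _ => hF3⟩
    · exact ⟨∅, Set.finite_empty, by simp, fun h1 h2 => absurd ⟨h1, h2⟩ h⟩
  choose F hF1 hF2 hF3 using key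
  let b : Set (C(X, ℝ) × Code S.Ω) :=
    {u | ∃ t ∈ H, ∃ k, ∃ v ∈ F t k, u = (v.1, .node (enc k) v.2.1 t.2 v.2.2)}
  have hb : ∀ t ∈ H, ∀ σ q, 0 < q → ∀ x, 0 < C.DD j t.1 σ q x →
      ∃ u ∈ b, 0 < u.1 x ∧ ∀ y, 0 < u.1 y → 0 < C.DD j t.1 σ q y := by
    intro t ht σ q hq x hx
    obtain ⟨m, hm⟩ := exists_nat_one_div_lt hx
    obtain ⟨v, hv, hvx⟩ := hF3 t (σ, q, m) ht hq x hm.le
    exact ⟨_, ⟨t, ht, (σ, q, m), v, hv, rfl⟩, hvx, fun y hy => ((hF2 t _ v hv).1.2.2 y hy).1⟩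
  refine ⟨b, ⟨?_, ?_⟩, hb, F, hF1, fun u hu => hu, ?_⟩
  · intro x hx
    have h1 : ret (C.M j) x ≠ ret (C.M j) (ret (C.N j) x) := by
      rw [hN.ret_ret' hM (C.NM j)]
      exact hx.symm
    obtain ⟨t, ht, h2 | h2⟩ := hH.sep _ _ h1
    · obtain ⟨q, hq1, hq2⟩ := exists_rat_btwn h2.1
      have hq0 : 0 < q := by exact_mod_cast hq1
      obtain ⟨u, hu, hux, -⟩ := hb t ht true q hq0 x
        (Dfun_true.2 ⟨h2.2.trans_lt hq1, hq2⟩)
      exact ⟨u, hu, hux⟩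
    · obtain ⟨q, hq1, hq2⟩ := exists_rat_btwn h2.1
      have hq0 : 0 < q := by exact_mod_cast hq1
      obtain ⟨u, hu, hux, -⟩ := hb t ht false q hq0 x
        (Dfun_false.2 ⟨h2.2.trans_lt hq1, hq2⟩)
      exact ⟨u, hu, hux⟩
  · rintro _ ⟨t, ht, k, v, hv, rfl⟩ x
    exact (hF2 t k v hv).1.2.1 x
  · intro t k v hv
    obtain ⟨⟨h1, -, h2⟩, h3⟩ := hF2 t k v hv
    exact ⟨h1, fun x hx => ⟨Dfun_pos (h2 x hx).1 h3, (h2 x hx).2⟩⟩

theorem exists_pcs [CompactSpace X] [WellFoundedLT ι] (H : ι → Set (C(X, ℝ) × Code S.Ω))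
    (hH : ∀ j, Fam S (C.M j) (H j)) : ∃ P, Pcs C P := by
  obtain ⟨enc, henc⟩ := exists_injective_nat (Bool × ℚ × ℕ)
  obtain ⟨P, hP⟩ := exists_rec
    (G := fun (j : ι) (b : Set (C(X, ℝ) × Code S.Ω)) =>
      (∀ x, ret (C.N j) x ≠ ret (C.M j) x → ∃ t ∈ b, 0 < t.1 x) ∧
        (∀ t ∈ b, ∀ x, t.1 (ret (C.M j) x) = t.1 x))
    (Φ := fun (j : ι) (P : (i : ι) → i < j → Set (C(X, ℝ) × Code S.Ω))
      (b : Set (C(X, ℝ) × Code S.Ω)) =>
      (∀ t ∈ H j, ∀ σ q, 0 < q → ∀ x, 0 < C.DD j t.1 σ q x →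
        ∃ u ∈ b, 0 < u.1 x ∧ ∀ y, 0 < u.1 y → 0 < C.DD j t.1 σ q y) ∧
      ∃ F : (C(X, ℝ) × Code S.Ω) → (Bool × ℚ × ℕ) → Set (C(X, ℝ) × S.Ω × Code S.Ω),
        (∀ t k, (F t k).Finite) ∧
        (∀ u ∈ b, ∃ t ∈ H j, ∃ k, ∃ v ∈ F t k, u = (v.1, .node (enc k) v.2.1 t.2 v.2.2)) ∧
        (∀ t k, ∀ v ∈ F t k, C.Jmp v.2.1 j ∧ ∀ x, 0 < v.1 x →
          (0 < t.1 x ∨ 0 < t.1 (ret (C.N j) x)) ∧ ((ret C.Z x, x) ∈ S.w v.2.1 ∨
            ∃ (i : ι) (hi : i < j) (h₂ : C(X, ℝ)), (h₂, v.2.2) ∈ P i hi ∧ 0 < h₂ x ∧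
              (ret (C.M i) x, x) ∈ S.w v.2.1)))
    (fun j f hf => C.level enc (H j) j (hH j) f (fun i hi => (hf i hi).1)
      (fun i hi => (hf i hi).2))
  choose F hF1 hF2 hF3 using fun j => (hP j).2.2
  have hcov' := fun j => (hP j).2.1
  refine ⟨P, fun i => (hP i).1.1, fun i => (hP i).1.2, ?_, ?_⟩
  · -- separation
    have one : ∀ i x y, ret (C.N i) x = ret (C.N i) y → ∀ t ∈ H i, 0 < t.1 x → t.1 y ≤ 0 →
        ∃ t ∈ P i, (0 < t.1 x ∧ t.1 y ≤ 0) ∨ (0 < t.1 y ∧ t.1 x ≤ 0) := by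
      intro i x y hxy t ht h1 h2
      rcases lt_or_ge (t.1 (ret (C.N i) x)) (t.1 x) with h3 | h3
      · obtain ⟨q, hq1, hq2⟩ := exists_rat_btwn (max_lt h3 h1)
        rw [max_lt_iff] at hq1
        have hq0 : 0 < q := by exact_mod_cast hq1.2
        obtain ⟨u, hu, hux, huy⟩ := hcov' i t ht true q hq0 x (Dfun_true.2 ⟨hq1.1, hq2⟩)
        refine ⟨u, hu, Or.inl ⟨hux, ?_⟩⟩
        by_contra hcon
        have h4 := (Dfun_true.1 (huy y (not_le.1 hcon))).2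
        linarith [hq1.2]
      · obtain ⟨q, hq1, hq2⟩ := exists_rat_btwn h1
        have hq0 : 0 < q := by exact_mod_cast hq1
        obtain ⟨u, hu, hux, huy⟩ := hcov' i t ht false q hq0 y (Dfun_false.2
          ⟨h2.trans_lt hq1, by
            show (q : ℝ) < t.1 (ret (C.N i) y)
            rw [← hxy]
            exact hq2.trans_le h3⟩)
        refine ⟨u, hu, Or.inr ⟨hux, ?_⟩⟩
        by_contra hcon
        have h4 := (Dfun_false.1 (huy x (not_le.1 hcon))).1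
        linarith
    intro i x y hN hM
    obtain ⟨t, ht, ⟨h1, h2⟩ | ⟨h1, h2⟩⟩ := (hH i).sep x y hM
    · exact one i x y hN t ht h1 h2
    · obtain ⟨u, hu, h3⟩ := one i y x hN.symm t ht h1 h2
      exact ⟨u, hu, h3.symm⟩
  · -- finiteness
    intro x s
    induction s with
    | leaf k =>
      refine ⟨.leaf k, rfl, ?_⟩
      refine Set.finite_empty.subset ?_
      rintro ⟨j, u⟩ ⟨h1, -, h2⟩
      obtain ⟨t, ht, k', v, hv, rfl⟩ := hF2 j u h1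
      exact h2.elim
    | pair k a b iha ihb =>
      obtain ⟨p, hp, -⟩ := iha
      obtain ⟨q, hq, -⟩ := ihb
      refine ⟨.pair k p q, ⟨rfl, hp, hq⟩, ?_⟩
      refine Set.finite_empty.subset ?_
      rintro ⟨j, u⟩ ⟨h1, -, h2⟩
      obtain ⟨t, ht, k', v, hv, rfl⟩ := hF2 j u h1
      exact h2.elim
    | node k W a b iha ihb =>
      obtain ⟨pb, hpb, hTb⟩ := ihb
      set Tb : Set (ι × (C(X, ℝ) × Code S.Ω)) :=
        {τ | τ ∈ {τ : ι × (C(X, ℝ) × Code S.Ω) | τ.2 ∈ P τ.1} ∧ 0 < τ.2.1 x ∧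
          Match S.cls τ.2.2 pb} with hTbdef
      let Z : Set (X × X) := insert (ret C.Z x, x) ((fun τ => (ret (C.M τ.1) x, x)) '' Tb)
      have hZ : Z.Finite := (hTb.image _).insert _
      choose n hn hfin using fun z => S.fin W z
      let WW : Set S.Ω := ⋃ z ∈ Z, {V | n z ∈ S.cls V ∧ z ∈ S.w V}
      have hWW : WW.Finite := hZ.biUnion fun z _ => hfin z
      let J : Set ι := ⋃ V ∈ WW, {j | C.Jmp V j}
      have hJ : J.Finite := hWW.biUnion fun V _ =>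
        Set.Subsingleton.finite fun i hi j hj => Jmp.eq C hi hj
      let m : Finset ℕ := (hZ.image n).toFinset
      have hm : (m : Set ℕ) = n '' Z := Set.Finite.coe_toFinset _
      obtain ⟨pa, hpa, hpa'⟩ := match_finite S.cls a J hJ
        (fun j p => {t | t ∈ H j ∧ (0 < t.1 x ∨ 0 < t.1 (ret (C.N j) x)) ∧
          Match S.cls t.2 p}.Finite) (by
          intro j _
          obtain ⟨p1, hp1, hf1⟩ := (hH j).fin x a
          obtain ⟨p2, hp2, hf2⟩ := (hH j).fin (ret (C.N j) x) a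
          obtain ⟨q, hq, hq'⟩ := match_inf S.cls a p1 p2 hp1 hp2
          refine ⟨q, hq, (hf1.union hf2).subset ?_⟩
          rintro t ⟨h1, h2 | h2, h3⟩
          · exact Or.inl ⟨h1, h2, (hq' _ h3).1⟩
          · exact Or.inr ⟨h1, h2, (hq' _ h3).2⟩) (by
          intro j p q h hpq
          exact h.subset fun t ht => ⟨ht.1, ht.2.1, hpq _ ht.2.2⟩)
      refine ⟨.node k m pa pb, ⟨rfl, ?_, hpa, hpb⟩, ?_⟩
      · rw [hm]
        rintro _ ⟨z, -, rfl⟩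
        exact hn z
      · have hbig : (⋃ j ∈ J, ⋃ t ∈ {t | t ∈ H j ∧ (0 < t.1 x ∨ 0 < t.1 (ret (C.N j) x)) ∧
            Match S.cls t.2 pa}, ⋃ k' ∈ {k' | enc k' = k},
            (fun v : C(X, ℝ) × S.Ω × Code S.Ω =>
              ((j, (v.1, Code.node (enc k') v.2.1 t.2 v.2.2)) :
                ι × (C(X, ℝ) × Code S.Ω))) '' F j t k').Finite := by
          refine hJ.biUnion fun j hj => (hpa' j hj).biUnion fun t _ => ?_
          refine Set.Finite.biUnion ?_ fun k' _ => (hF1 j t k').image _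
          exact Set.Subsingleton.finite fun k1 h1 k2 h2 =>
            henc ((show enc k1 = k from h1).trans (show enc k2 = k from h2).symm)
        refine hbig.subset ?_
        rintro ⟨j, u⟩ ⟨h1, h2, h3⟩
        obtain ⟨t, ht, k', v, hv, rfl⟩ := hF2 j u h1
        obtain ⟨h4, h5, h6, h7⟩ := h3
        obtain ⟨h8, h9⟩ := hF3 j t k' v hv
        obtain ⟨h10, h11⟩ := h9 x h2
        have hz : ∃ z ∈ Z, z ∈ S.w v.2.1 := by
          rcases h11 with h11 | ⟨i, hi, h₂, h12, h13, h14⟩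
          · exact ⟨_, mem_insert _ _, h11⟩
          · exact ⟨_, mem_insert_of_mem _ ⟨(i, (h₂, v.2.2)), ⟨h12, h13, h7⟩, rfl⟩, h14⟩
        obtain ⟨z, hz, hz'⟩ := hz
        have hV : v.2.1 ∈ WW := by
          refine mem_biUnion hz ⟨?_, hz'⟩
          apply h5
          rw [hm]
          exact ⟨z, hz, rfl⟩
        have hj : j ∈ J := mem_biUnion hV h8
        refine mem_biUnion hj (mem_biUnion (show t ∈ {t | t ∈ H j ∧
          (0 < t.1 x ∨ 0 < t.1 (ret (C.N j) x)) ∧ Match S.cls t.2 pa} from ⟨ht, h10, h6⟩) ?_)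
        exact mem_biUnion (show k' ∈ {k' | enc k' = k} from h4) ⟨v, hv, rfl⟩

end Chn

end Pool.Agent.H60Gulko
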