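import Pool.Agent.H60Gulko.Sys

/-!
# The retraction onto the closure of the set of points of a closed-off set
-/

set_option autoImplicit false

open Set Cardinal Topology

namespace Pool.Agent.H60Gulko

universe u

variable {X : Type u} [TopologicalSpace X] {S : Sys X}

theorem inf_le_l (f g : C(X, ℝ)) (y : X) : (f ⊓ g) y ≤ f y := by
  simp

theorem inf_le_r (f g : C(X, ℝ)) (y : X) : (f ⊓ g) y ≤ g y := by
  simp

namespace Sys

namespace Good

variable {A : Set (E X)} (hA : S.Good A)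
include hA

theorem eq_of_le {y u : X} (h : ∀ f ∈ Fn A, 0 < f u → 0 ≤ f y) : ∀ f ∈ Fn A, f y = f u := by
  intro f hf
  rcases lt_trichotomy (f y) (f u) with h1 | h1 | h1
  · exfalso
    obtain ⟨r, hr1, hr2⟩ := exists_rat_btwn h1
    have h2 := h _ (hA.sub_const hf r) (by
      simp only [ContinuousMap.sub_apply, ContinuousMap.const_apply]; linarith)
    simp only [ContinuousMap.sub_apply, ContinuousMap.const_apply] at h2
    linarith
  · exact h1
  · exfalso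
    obtain ⟨r, hr1, hr2⟩ := exists_rat_btwn h1
    have h2 := h _ (hA.const_sub hf r) (by
      simp only [ContinuousMap.sub_apply, ContinuousMap.const_apply]; linarith)
    simp only [ContinuousMap.sub_apply, ContinuousMap.const_apply] at h2
    linarith

theorem exists_pt [CompactSpace X] (x : X) : ∃ y ∈ closure (Pt A), ∀ f ∈ Fn A, f y = f x := by
  let I := {f : C(X, ℝ) // f ∈ Fn A ∧ 0 < f x}
  have hI : Nonempty I := ⟨⟨1, hA.one_mem, by simp⟩⟩
  let T : I → Set X := fun f => closure (Pt A) ∩ {y | 0 ≤ f.1 y}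
  have hc : ∀ f, IsClosed (T f) := fun f =>
    isClosed_closure.inter (isClosed_le continuous_const f.1.continuous)
  obtain ⟨y, hy⟩ := IsCompact.nonempty_iInter_of_directed_nonempty_isCompact_isClosed T (by
      intro f g
      refine ⟨⟨f.1 ⊓ g.1, hA.inf f.2.1 g.2.1, ?_⟩, ?_, ?_⟩
      · simpa using ⟨f.2.2, g.2.2⟩
      · rintro y ⟨h1, h2⟩
        exact ⟨h1, le_trans h2 (inf_le_l _ _ _)⟩
      · rintro y ⟨h1, h2⟩
        exact ⟨h1, le_trans h2 (inf_le_r _ _ _)⟩) (by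
      intro f
      obtain ⟨p, hp, hp'⟩ := hA.pos f.2.1 ⟨x, f.2.2⟩
      exact ⟨p, subset_closure hp, hp'.le⟩) (fun f => (hc f).isCompact) hc
  rw [mem_iInter] at hy
  exact ⟨y, (hy ⟨1, hA.one_mem, by simp⟩).1, hA.eq_of_le fun f hf hfx => (hy ⟨f, hf, hfx⟩).2⟩

omit hA in
theorem _root_.Pool.Agent.H60Gulko.meets_of_mem {W : S.Ω} {u v : X} (hu : u ∈ closure (Pt A))
    (hv : v ∈ closure (Pt A)) (h : (u, v) ∈ S.w W) : S.Meets A W := by
  have h1 : (u, v) ∈ closure (Pt A ×ˢ Pt A) := by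
    rw [closure_prod_eq]
    exact ⟨hu, hv⟩
  obtain ⟨⟨p, q⟩, hpq, hp, hq⟩ := mem_closure_iff.1 h1 _ (S.isOpen W) h
  exact ⟨p, hp, q, hq, hpq⟩

theorem sepPt {u v : X} (hu : u ∈ closure (Pt A)) (hv : v ∈ closure (Pt A)) (huv : u ≠ v) :
    ∃ f ∈ Fn A, f u ≠ f v := by
  obtain ⟨W, hW⟩ := S.cover u v huv
  exact ⟨S.φ W, hA.phi (meets_of_mem hu hv hW), S.sep W u v hW⟩

/-- small neighbourhoods in the closure of the set of points -/
theorem nbhd [CompactSpace X] {u : X} (hu : u ∈ closure (Pt A)) {O : Set X} (hO : IsOpen O)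
    (huO : u ∈ O) : ∃ f ∈ Fn A, 0 < f u ∧ ∀ y ∈ closure (Pt A), 0 < f y → y ∈ O := by
  by_contra hcon
  push Not at hcon
  let I := {f : C(X, ℝ) // f ∈ Fn A ∧ 0 < f u}
  have hI : Nonempty I := ⟨⟨1, hA.one_mem, by simp⟩⟩
  let T : I → Set X := fun f => (closure (Pt A) ∩ Oᶜ) ∩ {y | 0 ≤ f.1 y}
  have hc : ∀ f, IsClosed (T f) := fun f =>
    (isClosed_closure.inter hO.isClosed_compl).inter
      (isClosed_le continuous_const f.1.continuous)
  obtain ⟨y, hy⟩ := IsCompact.nonempty_iInter_of_directed_nonempty_isCompact_isClosed T (by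
      intro f g
      refine ⟨⟨f.1 ⊓ g.1, hA.inf f.2.1 g.2.1, ?_⟩, ?_, ?_⟩
      · simpa using ⟨f.2.2, g.2.2⟩
      · rintro y ⟨h1, h2⟩
        exact ⟨h1, le_trans h2 (inf_le_l _ _ _)⟩
      · rintro y ⟨h1, h2⟩
        exact ⟨h1, le_trans h2 (inf_le_r _ _ _)⟩) (by
      intro f
      obtain ⟨y, hy1, hy2, hy3⟩ := hcon f.1 f.2.1 f.2.2
      exact ⟨y, ⟨hy1, hy3⟩, hy2.le⟩) (fun f => (hc f).isCompact) hc
  rw [mem_iInter] at hy
  have h1 := (hy ⟨1, hA.one_mem, by simp⟩).1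
  have hne : y ≠ u := by
    rintro rfl
    exact h1.2 huO
  obtain ⟨f, hf, hfne⟩ := hA.sepPt h1.1 hu hne
  exact hfne (hA.eq_of_le (fun g hg hgu => (hy ⟨g, hg, hgu⟩).2) f hf)

/-- small boxes inside a decided open set -/
theorem box [CompactSpace X] {u v : X} (hu : u ∈ closure (Pt A)) (hv : v ∈ closure (Pt A))
    {O : Set (X × X)} (hO : IsOpen O) (hD : Dec A O) (hz : (u, v) ∈ O) :
    ∃ f ∈ Fn A, ∃ g ∈ Fn A, 0 < f u ∧ 0 < g v ∧ ∀ z : X × X, 0 < f z.1 → 0 < g z.2 → z ∈ O := by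
  by_contra hcon
  push Not at hcon
  let I := {f : C(X, ℝ) × C(X, ℝ) // (f.1 ∈ Fn A ∧ f.2 ∈ Fn A) ∧ 0 < f.1 u ∧ 0 < f.2 v}
  have hI : Nonempty I := ⟨⟨(1, 1), ⟨hA.one_mem, hA.one_mem⟩, by simp⟩⟩
  let T : I → Set (X × X) := fun f =>
    ((closure (Pt A) ×ˢ closure (Pt A)) ∩ Oᶜ) ∩ ({z | 0 ≤ f.1.1 z.1} ∩ {z | 0 ≤ f.1.2 z.2})
  have hc : ∀ f, IsClosed (T f) := fun f =>
    ((isClosed_closure.prod isClosed_closure).inter hO.isClosed_compl).inter
      ((isClosed_le continuous_const (f.1.1.continuous.comp continuous_fst)).inter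
        (isClosed_le continuous_const (f.1.2.continuous.comp continuous_snd)))
  obtain ⟨y, hy⟩ := IsCompact.nonempty_iInter_of_directed_nonempty_isCompact_isClosed T (by
      intro f g
      refine ⟨⟨(f.1.1 ⊓ g.1.1, f.1.2 ⊓ g.1.2), ⟨hA.inf f.2.1.1 g.2.1.1, hA.inf f.2.1.2 g.2.1.2⟩,
        ?_⟩, ?_, ?_⟩
      · simpa using ⟨⟨f.2.2.1, g.2.2.1⟩, f.2.2.2, g.2.2.2⟩
      · rintro y ⟨h1, h2, h3⟩
        exact ⟨h1, le_trans h2 (inf_le_l _ _ _), le_trans h3 (inf_le_l _ _ _)⟩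
      · rintro y ⟨h1, h2, h3⟩
        exact ⟨h1, le_trans h2 (inf_le_r _ _ _), le_trans h3 (inf_le_r _ _ _)⟩) (by
      intro f
      obtain ⟨z, hz1, hz2, hz3, hz4, hz5⟩ := hD f.1.1 f.2.1.1 f.1.2 f.2.1.2
        (hcon f.1.1 f.2.1.1 f.1.2 f.2.1.2 f.2.2.1 f.2.2.2)
      exact ⟨z, ⟨⟨subset_closure hz1, subset_closure hz2⟩, hz5⟩, hz3.le, hz4.le⟩)
      (fun f => (hc f).isCompact) hc
  rw [mem_iInter] at hy
  have h1 := (hy ⟨(1, 1), ⟨hA.one_mem, hA.one_mem⟩, by simp⟩).1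
  have e1 : y.1 = u := by
    by_contra hne
    obtain ⟨f, hf, hfne⟩ := hA.sepPt h1.1.1 hu hne
    exact hfne (hA.eq_of_le (fun g hg hgu =>
      (hy ⟨(g, 1), ⟨hg, hA.one_mem⟩, hgu, by simp⟩).2.1) f hf)
  have e2 : y.2 = v := by
    by_contra hne
    obtain ⟨f, hf, hfne⟩ := hA.sepPt h1.1.2 hv hne
    exact hfne (hA.eq_of_le (fun g hg hgu =>
      (hy ⟨(1, g), ⟨hA.one_mem, hg⟩, by simp, hgu⟩).2.2) f hf)
  apply h1.2
  have : y = (u, v) := Prod.ext e1 e2
  rw [this]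
  exact hz

end Good

end Sys

open Classical in
/-- the retraction -/
noncomputable def ret (A : Set (E X)) (x : X) : X :=
  if h : ∃ y ∈ closure (Pt A), ∀ f ∈ Fn A, f y = f x then h.choose else x

namespace Sys

namespace Good

variable {A B : Set (E X)} [CompactSpace X] (hA : S.Good A)
include hA

theorem ret_mem (x : X) : ret A x ∈ closure (Pt A) := by
  have h := hA.exists_pt x
  rw [ret, dif_pos h]
  exact h.choose_spec.1

theorem ret_eq (x : X) {f : C(X, ℝ)} (hf : f ∈ Fn A) : f (ret A x) = f x := by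
  have h := hA.exists_pt x
  rw [ret, dif_pos h]
  exact h.choose_spec.2 f hf

theorem eq_ret {x y : X} (hy : y ∈ closure (Pt A)) (h : ∀ f ∈ Fn A, f y = f x) :
    y = ret A x := by
  by_contra hne
  obtain ⟨f, hf, hfne⟩ := hA.sepPt hy (hA.ret_mem x) hne
  exact hfne ((h f hf).trans (hA.ret_eq x hf).symm)

theorem ret_of_mem {x : X} (hx : x ∈ closure (Pt A)) : ret A x = x :=
  (hA.eq_ret hx fun _ _ => rfl).symm

theorem ret_eq_ret_iff {x y : X} : ret A x = ret A y ↔ ∀ f ∈ Fn A, f x = f y := by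
  constructor
  · intro h f hf
    rw [← hA.ret_eq x hf, h, hA.ret_eq y hf]
  · intro h
    exact hA.eq_ret (hA.ret_mem x) fun f hf => (hA.ret_eq x hf).trans (h f hf)

theorem ret_ret (hB : S.Good B) (h : A ⊆ B) (x : X) : ret A (ret B x) = ret A x := by
  rw [hA.ret_eq_ret_iff]
  intro f hf
  exact hB.ret_eq x (h hf)

theorem ret_ret' (hB : S.Good B) (h : A ⊆ B) (x : X) : ret B (ret A x) = ret A x :=
  hB.ret_of_mem (closure_mono (show Pt A ⊆ Pt B from fun _ hp => h hp) (hA.ret_mem x))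

theorem continuous_ret : Continuous (ret A) := by
  rw [continuous_iff_continuousAt]
  intro x
  rw [ContinuousAt, (nhds_basis_opens _).tendsto_right_iff]
  rintro O ⟨hxO, hO⟩
  obtain ⟨f, hf, hfx, hfO⟩ := hA.nbhd (hA.ret_mem x) hO hxO
  have h1 : ∀ᶠ y in 𝓝 x, 0 < f y := by
    rw [hA.ret_eq x hf] at hfx
    exact f.continuous.continuousAt.eventually (lt_mem_nhds hfx)
  filter_upwards [h1] with y hy
  exact hfO _ (hA.ret_mem y) (by rwa [hA.ret_eq y hf])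

end Good

end Sys

end Pool.Agent.H60Gulko
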