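import Pool.Agent.H60Gulko.Chain
import Pool.Agent.H60Gulko.Code

/-!
# Finitely many pieces
-/

set_option autoImplicit false

open Set Cardinal Topology

namespace Pool.Agent.H60Gulko

universe u

theorem exists_rec {ι : Type*} [LinearOrder ι] [WellFoundedLT ι] {β : Type*} (G : ι → β → Prop)
    (Φ : (j : ι) → (∀ i, i < j → β) → β → Prop)
    (step : ∀ j (f : ∀ i, i < j → β), (∀ i hi, G i (f i hi)) → ∃ b, G j b ∧ Φ j f b) :
    ∃ F : ι → β, ∀ j, G j (F j) ∧ Φ j (fun i _ => F i) (F j) := by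
  classical
  let F' : (j : ι) → {b // G j b} := WellFounded.fix (C := fun j => {b // G j b})
    (wellFounded_lt (α := ι)) (fun j ih =>
      ⟨Classical.choose (step j (fun i hi => (ih i hi).1) (fun i hi => (ih i hi).2)),
        (Classical.choose_spec (step j (fun i hi => (ih i hi).1) (fun i hi => (ih i hi).2))).1⟩)
  refine ⟨fun j => (F' j).1, fun j => ⟨(F' j).2, ?_⟩⟩
  have h := Classical.choose_spec (step j (fun i _ => (F' i).1) (fun i _ => (F' i).2))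
  have e : F' j = ⟨Classical.choose (step j (fun i _ => (F' i).1) (fun i _ => (F' i).2)), h.1⟩ :=
    WellFounded.fix_eq _ _ j
  show Φ j (fun i _ => (F' i).1) (F' j).1
  rw [e]
  exact h.2

variable {X : Type u} [TopologicalSpace X]

/-- the retraction as a continuous map -/
noncomputable def retC [CompactSpace X] {S : Sys X} {A : Set (E X)} (hA : S.Good A) : C(X, X) :=
  ⟨ret A, hA.continuous_ret⟩

namespace Chn

variable {S : Sys X} {A : Set (E X)} {ι : Type u} [LinearOrder ι] (C : Chn S A ι)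

theorem exists_piece [CompactSpace X] [WellFoundedLT ι] (j : ι)
    (P : (i : ι) → i < j → Set (C(X, ℝ) × Code S.Ω))
    (hcov : ∀ i (hi : i < j), ∀ x, ret (C.N i) x ≠ ret (C.M i) x → ∃ t ∈ P i hi, 0 < t.1 x)
    (hinv : ∀ i (hi : i < j), ∀ t ∈ P i hi, ∀ x, t.1 (ret (C.M i) x) = t.1 x)
    (D : C(X, ℝ)) (hD : ∀ x, D (ret (C.M j) x) = D x)
    (hDj : ∀ x, 0 < D x → ret (C.N j) x ≠ ret (C.M j) x) (x : X) (hx : 0 < D x) :
    ∃ t : C(X, ℝ) × S.Ω × Code S.Ω, (C.Jmp t.2.1 j ∧ (∀ x, t.1 (ret (C.M j) x) = t.1 x) ∧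
      ∀ x, 0 < t.1 x → 0 < D x ∧ ((ret C.Z x, x) ∈ S.w t.2.1 ∨
        ∃ (i : ι) (hi : i < j) (h₂ : C(X, ℝ)), (h₂, t.2.2) ∈ P i hi ∧ 0 < h₂ x ∧
          (ret (C.M i) x, x) ∈ S.w t.2.1)) ∧ 0 < t.1 x := by
  have hM := C.goodM j
  have hN := C.goodN j
  obtain ⟨W, hW, hxW⟩ := C.exists_jmp (hDj x hx)
  have hcl : closure (Pt (C.N j)) ⊆ closure (Pt (C.M j)) :=
    closure_mono fun p hp => C.NM j hp
  obtain ⟨f, hf, g, hg, hfx, hgx, hfg⟩ := hM.box (hcl (hN.ret_mem x)) (hM.ret_mem x)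
    (S.isOpen W) (hM.decW hW.1) hxW
  have hg' : ∀ y, g (ret (C.M j) y) = g y := fun y => hM.ret_eq y hg
  rw [hg'] at hgx
  have hO : IsOpen {z : X × X | 0 < f z.1} := isOpen_lt continuous_const
    (f.continuous.comp continuous_fst)
  rcases C.jumpN hO (x := x) (y := x) (j := j) hfx with h1 | ⟨i, hi, h1, h2⟩
  · have h1 : 0 < f (ret C.Z x) := h1
    refine ⟨((g ⊓ f.comp (retC C.goodZ)) ⊓ D, W, .leaf 0), ⟨hW, ?_, ?_⟩, ?_⟩
    · intro y
      have e : ret C.Z (ret (C.M j) y) = ret C.Z y := C.goodZ.ret_ret hM (C.ZM j) y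
      simp [retC, hg', hD, e]
    · intro y hy
      simp only [retC, ContinuousMap.inf_apply, ContinuousMap.comp_apply,
        ContinuousMap.coe_mk, lt_inf_iff] at hy
      exact ⟨hy.2, Or.inl (hfg (ret C.Z y, y) hy.1.2 hy.1.1)⟩
    · simp only [retC, ContinuousMap.inf_apply, ContinuousMap.comp_apply,
        ContinuousMap.coe_mk, lt_inf_iff]
      exact ⟨⟨hgx, h1⟩, hx⟩
  · have h1 : ¬ 0 < f (ret (C.N i) x) := h1
    have h2 : 0 < f (ret (C.M i) x) := h2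
    have hMi := C.goodM i
    obtain ⟨⟨h₂, c₂⟩, ht, htx⟩ := hcov i hi x (by
      intro he
      rw [he] at h1
      exact h1 h2)
    refine ⟨(((g ⊓ f.comp (retC hMi)) ⊓ h₂) ⊓ D, W, c₂), ⟨hW, ?_, ?_⟩, ?_⟩
    · intro y
      have e : ret (C.M i) (ret (C.M j) y) = ret (C.M i) y :=
        hMi.ret_ret hM (C.MM _ _ hi.le) y
      have e2 : h₂ (ret (C.M j) y) = h₂ y := by
        have e3 := hinv i hi _ ht (ret (C.M j) y)
        rw [e] at e3
        rw [← e3]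
        exact hinv i hi _ ht y
      simp [retC, hg', hD, e, e2]
    · intro y hy
      simp only [retC, ContinuousMap.inf_apply, ContinuousMap.comp_apply,
        ContinuousMap.coe_mk, lt_inf_iff] at hy
      exact ⟨hy.2, Or.inr ⟨i, hi, h₂, ht, hy.1.2, hfg (ret (C.M i) y, y) hy.1.1.2 hy.1.1.1⟩⟩
    · simp only [retC, ContinuousMap.inf_apply, ContinuousMap.comp_apply,
        ContinuousMap.coe_mk, lt_inf_iff]
      exact ⟨⟨⟨hgx, h2⟩, htx⟩, hx⟩

theorem exists_pieces [CompactSpace X] [WellFoundedLT ι] (j : ι)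
    (P : (i : ι) → i < j → Set (C(X, ℝ) × Code S.Ω))
    (hcov : ∀ i (hi : i < j), ∀ x, ret (C.N i) x ≠ ret (C.M i) x → ∃ t ∈ P i hi, 0 < t.1 x)
    (hinv : ∀ i (hi : i < j), ∀ t ∈ P i hi, ∀ x, t.1 (ret (C.M i) x) = t.1 x)
    (D : C(X, ℝ)) (hD : ∀ x, D (ret (C.M j) x) = D x)
    (hDj : ∀ x, 0 < D x → ret (C.N j) x ≠ ret (C.M j) x) (δ : ℝ) (hδ : 0 < δ) :
    ∃ F : Set (C(X, ℝ) × S.Ω × Code S.Ω), F.Finite ∧
      (∀ t ∈ F, C.Jmp t.2.1 j ∧ (∀ x, t.1 (ret (C.M j) x) = t.1 x) ∧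
        ∀ x, 0 < t.1 x → 0 < D x ∧ ((ret C.Z x, x) ∈ S.w t.2.1 ∨
          ∃ (i : ι) (hi : i < j) (h₂ : C(X, ℝ)), (h₂, t.2.2) ∈ P i hi ∧ 0 < h₂ x ∧
            (ret (C.M i) x, x) ∈ S.w t.2.1)) ∧
      ∀ x, δ ≤ D x → ∃ t ∈ F, 0 < t.1 x := by
  have key := C.exists_piece j P hcov hinv D hD hDj
  choose v hv1 hv2 using key
  have hK : IsCompact {x | δ ≤ D x} := (isClosed_le continuous_const D.continuous).isCompact
  obtain ⟨T, hT2⟩ := hK.elim_nhds_subcover' (fun x hx => {y | 0 < (v x (hδ.trans_le hx)).1 y}) (by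
    intro x hx
    exact (isOpen_lt continuous_const (v x _).1.continuous).mem_nhds (hv2 x _))
  refine ⟨(fun x : {x | δ ≤ D x} => v x.1 (hδ.trans_le x.2)) '' T, T.finite_toSet.image _, ?_, ?_⟩
  · rintro _ ⟨x, hx, rfl⟩
    exact hv1 x _
  · intro x hx
    have := hT2 hx
    simp only [mem_iUnion] at this
    obtain ⟨y, hy, hy'⟩ := this
    exact ⟨_, ⟨y, hy, rfl⟩, hy'⟩

end Chn

end Pool.Agent.H60Gulko
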