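import Pool.Agent.H60Gulko.Closure

/-!
# Systems of open sets off the diagonal and the retractions attached to closed-off sets
-/

set_option autoImplicit false

open Set Cardinal Topology

namespace Pool.Agent.H60Gulko

universe u

/-- The data extracted from a weakly σ-point-finite open cover of the complement of the diagonal,
together with countably many open sets to be decided for every pair of functions. -/
structure Sys (X : Type u) [TopologicalSpace X] where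
  Ω : Type u
  w : Ω → Set (X × X)
  cls : Ω → Set ℕ
  isOpen : ∀ W, IsOpen (w W)
  cover : ∀ x y : X, x ≠ y → ∃ W, (x, y) ∈ w W
  φ : Ω → C(X, ℝ)
  sep : ∀ W u v, (u, v) ∈ w W → φ W u ≠ φ W v
  fin : ∀ (W : Ω) (z : X × X), ∃ n ∈ cls W, {V : Ω | n ∈ cls V ∧ z ∈ w V}.Finite
  ask : C(X, ℝ) → C(X, ℝ) → Set (Set (X × X))
  ask_countable : ∀ f g, (ask f g).Countable
  ask_open : ∀ f g, ∀ O ∈ ask f g, IsOpen O

variable {X : Type u} [TopologicalSpace X]

/-- points and functions -/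
abbrev E (X : Type u) [TopologicalSpace X] : Type u := X ⊕ C(X, ℝ)

/-- at most one witness -/
def wit (O : Set (X × X)) (f g : C(X, ℝ)) : Set (X × X) :=
  {z | ∃ h : ∃ z : X × X, 0 < f z.1 ∧ 0 < g z.2 ∧ z ∉ O, z = h.choose}

theorem wit_countable (O : Set (X × X)) (f g : C(X, ℝ)) : (wit O f g).Countable := by
  apply Set.Subsingleton.countable
  rintro z ⟨h, rfl⟩ z' ⟨h', rfl⟩
  rfl

theorem wit_exists {O : Set (X × X)} {f g : C(X, ℝ)}
    (h : ∃ z : X × X, 0 < f z.1 ∧ 0 < g z.2 ∧ z ∉ O) :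
    ∃ z ∈ wit O f g, 0 < f z.1 ∧ 0 < g z.2 ∧ z ∉ O :=
  ⟨h.choose, ⟨h, rfl⟩, h.choose_spec⟩

/-- the two coordinates -/
def pr (z : X × X) : Set (E X) := {Sum.inl z.1, Sum.inl z.2}

theorem pr_countable (z : X × X) : (pr z).Countable := by
  unfold pr
  exact (Set.countable_singleton _).insert _

namespace Sys

variable (S : Sys X)

theorem countable_mem (z : X × X) : {W : S.Ω | z ∈ S.w W}.Countable := by
  have h : {W : S.Ω | z ∈ S.w W} ⊆
      ⋃ n ∈ {n : ℕ | {V : S.Ω | n ∈ S.cls V ∧ z ∈ S.w V}.Finite},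
        {V : S.Ω | n ∈ S.cls V ∧ z ∈ S.w V} := by
    intro W hW
    obtain ⟨n, hn, hf⟩ := S.fin W z
    exact mem_biUnion (show n ∈ {n : ℕ | _} from hf) ⟨hn, hW⟩
  refine Set.Countable.mono h ?_
  exact (Set.to_countable _).biUnion fun n hn => (show Set.Finite _ from hn).countable

/-- the requirements -/
def Req (a b c d : E X) : Set (E X) :=
  (⋃ p ∈ {p | a = Sum.inl p}, ⋃ q ∈ {q | b = Sum.inl q}, ⋃ W ∈ {W | (p, q) ∈ S.w W},
    {Sum.inr (S.φ W)}) ∪
  (⋃ p ∈ {p | a = Sum.inl p}, ⋃ q ∈ {q | b = Sum.inl q}, ⋃ f ∈ {f | c = Sum.inr f},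
    ⋃ g ∈ {g | d = Sum.inr g}, ⋃ W ∈ {W | (p, q) ∈ S.w W}, ⋃ z ∈ wit (S.w W) f g, pr z) ∪
  (⋃ f ∈ {f | a = Sum.inr f}, ⋃ g ∈ {g | b = Sum.inr g}, {Sum.inr (f ⊓ g)}) ∪
  (⋃ f ∈ {f | a = Sum.inr f}, ⋃ r : ℚ, {Sum.inr (f - ContinuousMap.const X (r : ℝ)),
    Sum.inr (ContinuousMap.const X (r : ℝ) - f)}) ∪
  (⋃ f ∈ {f | a = Sum.inr f}, ⋃ z ∈ wit ∅ f f, pr z) ∪
  (⋃ f ∈ {f | a = Sum.inr f}, ⋃ g ∈ {g | b = Sum.inr g}, ⋃ f' ∈ {f' | c = Sum.inr f'},
    ⋃ g' ∈ {g' | d = Sum.inr g'}, ⋃ O ∈ S.ask f g, ⋃ z ∈ wit O f' g', pr z)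

theorem countable_inl (a : E X) : {p : X | a = Sum.inl p}.Countable := by
  apply Set.Subsingleton.countable
  rintro p hp q hq
  have : (Sum.inl p : E X) = Sum.inl q := hp.symm.trans hq
  exact Sum.inl_injective this

theorem countable_inr (a : E X) : {f : C(X, ℝ) | a = Sum.inr f}.Countable := by
  apply Set.Subsingleton.countable
  rintro p hp q hq
  have : (Sum.inr p : E X) = Sum.inr q := hp.symm.trans hq
  exact Sum.inr_injective this

theorem req_countable (a b c d : E X) : (S.Req a b c d).Countable := by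
  unfold Req
  refine ((((Set.Countable.union ?_ ?_).union ?_).union ?_).union ?_).union ?_
  · exact (countable_inl a).biUnion fun p _ => (countable_inl b).biUnion fun q _ =>
      (S.countable_mem _).biUnion fun W _ => Set.countable_singleton _
  · exact (countable_inl a).biUnion fun p _ => (countable_inl b).biUnion fun q _ =>
      (countable_inr c).biUnion fun f _ => (countable_inr d).biUnion fun g _ =>
      (S.countable_mem _).biUnion fun W _ => (wit_countable _ _ _).biUnion fun z _ =>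
      pr_countable z
  · exact (countable_inr a).biUnion fun f _ => (countable_inr b).biUnion fun g _ =>
      Set.countable_singleton _
  · exact (countable_inr a).biUnion fun f _ => Set.countable_iUnion fun r =>
      (Set.countable_singleton _).insert _
  · exact (countable_inr a).biUnion fun f _ => (wit_countable _ _ _).biUnion fun z _ =>
      pr_countable z
  · exact (countable_inr a).biUnion fun f _ => (countable_inr b).biUnion fun g _ =>
      (countable_inr c).biUnion fun f' _ => (countable_inr d).biUnion fun g' _ =>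
      (S.ask_countable f g).biUnion fun O _ => (wit_countable _ _ _).biUnion fun z _ =>
      pr_countable z

/-- closed-off sets -/
structure Good (A : Set (E X)) : Prop where
  one : Sum.inr 1 ∈ A
  cl : Clsd S.Req A

/-- the least closed-off set containing `T` -/
def hull (T : Set (E X)) : Set (E X) := clo S.Req (insert (Sum.inr 1) T)

theorem good_hull (T : Set (E X)) : S.Good (S.hull T) :=
  ⟨subset_clo _ _ (mem_insert _ _), clsd_clo _ _⟩

theorem subset_hull (T : Set (E X)) : T ⊆ S.hull T :=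
  (subset_insert _ _).trans (subset_clo _ _)

theorem hull_subset {T A : Set (E X)} (hA : S.Good A) (h : T ⊆ A) : S.hull T ⊆ A :=
  clo_subset _ hA.cl (insert_subset hA.one h)

theorem hull_mono {T T' : Set (E X)} (h : T ⊆ T') : S.hull T ⊆ S.hull T' :=
  S.hull_subset (S.good_hull T') (h.trans (S.subset_hull T'))

theorem mk_hull_le (T : Set (E X)) : #(S.hull T) ≤ max ℵ₀ #T := by
  refine (mk_clo_le _ S.req_countable _).trans ?_
  refine max_le (le_max_left _ _) ?_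
  refine (mk_insert_le).trans ?_
  exact add_le_of_le (le_max_left _ _) (le_max_right _ _)
    (one_le_aleph0.trans (le_max_left _ _))

end Sys

/-- the points of `A` -/
def Pt (A : Set (E X)) : Set X := {p | Sum.inl p ∈ A}

/-- the functions of `A` -/
def Fn (A : Set (E X)) : Set C(X, ℝ) := {f | Sum.inr f ∈ A}

/-- `A` decides `O` -/
def Dec (A : Set (E X)) (O : Set (X × X)) : Prop :=
  ∀ f ∈ Fn A, ∀ g ∈ Fn A, (∃ z : X × X, 0 < f z.1 ∧ 0 < g z.2 ∧ z ∉ O) →
    ∃ z : X × X, z.1 ∈ Pt A ∧ z.2 ∈ Pt A ∧ 0 < f z.1 ∧ 0 < g z.2 ∧ z ∉ O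

namespace Sys

variable (S : Sys X)

/-- `W` meets the square of the set of points of `A` -/
def Meets (A : Set (E X)) (W : S.Ω) : Prop := ∃ p ∈ Pt A, ∃ q ∈ Pt A, (p, q) ∈ S.w W

variable {S}

theorem Meets.mono {A B : Set (E X)} (h : A ⊆ B) {W : S.Ω} (hW : S.Meets A W) :
    S.Meets B W := by
  obtain ⟨p, hp, q, hq, h'⟩ := hW
  exact ⟨p, h hp, q, h hq, h'⟩

namespace Good

variable {A : Set (E X)} (hA : S.Good A)
include hA

theorem one_mem : (1 : C(X, ℝ)) ∈ Fn A := hA.one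

theorem phi {W : S.Ω} (hW : S.Meets A W) : S.φ W ∈ Fn A := by
  obtain ⟨p, hp, q, hq, h⟩ := hW
  apply hA.cl _ hp _ hq _ hp _ hq
  refine Or.inl (Or.inl (Or.inl (Or.inl (Or.inl ?_))))
  simp only [mem_iUnion]
  exact ⟨p, rfl, q, rfl, W, h, rfl⟩

theorem decW {W : S.Ω} (hW : S.Meets A W) : Dec A (S.w W) := by
  obtain ⟨p, hp, q, hq, h⟩ := hW
  intro f hf g hg hz
  obtain ⟨z, hz1, hz2, hz3, hz4⟩ := wit_exists hz
  have key : pr z ⊆ A := by
    intro e he
    apply hA.cl _ hp _ hq _ hf _ hg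
    refine Or.inl (Or.inl (Or.inl (Or.inl (Or.inr ?_))))
    simp only [mem_iUnion]
    exact ⟨p, rfl, q, rfl, f, rfl, g, rfl, W, h, z, hz1, he⟩
  exact ⟨z, key (Or.inl rfl), key (Or.inr rfl), hz2, hz3, hz4⟩

theorem inf {f g : C(X, ℝ)} (hf : f ∈ Fn A) (hg : g ∈ Fn A) : f ⊓ g ∈ Fn A := by
  apply hA.cl _ hf _ hg _ hf _ hg
  refine Or.inl (Or.inl (Or.inl (Or.inr ?_)))
  simp only [mem_iUnion]
  exact ⟨f, rfl, g, rfl, rfl⟩

theorem sub_const {f : C(X, ℝ)} (hf : f ∈ Fn A) (r : ℚ) :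
    f - ContinuousMap.const X (r : ℝ) ∈ Fn A := by
  apply hA.cl _ hf _ hf _ hf _ hf
  refine Or.inl (Or.inl (Or.inr ?_))
  simp only [mem_iUnion]
  exact ⟨f, rfl, r, Or.inl rfl⟩

theorem const_sub {f : C(X, ℝ)} (hf : f ∈ Fn A) (r : ℚ) :
    ContinuousMap.const X (r : ℝ) - f ∈ Fn A := by
  apply hA.cl _ hf _ hf _ hf _ hf
  refine Or.inl (Or.inl (Or.inr ?_))
  simp only [mem_iUnion]
  exact ⟨f, rfl, r, Or.inr rfl⟩

theorem pos {f : C(X, ℝ)} (hf : f ∈ Fn A) (h : ∃ x, 0 < f x) : ∃ p ∈ Pt A, 0 < f p := by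
  obtain ⟨x, hx⟩ := h
  obtain ⟨z, hz1, hz2, -⟩ := wit_exists (O := ∅) (f := f) (g := f)
    ⟨(x, x), hx, hx, Set.notMem_empty _⟩
  refine ⟨z.1, ?_, hz2⟩
  apply hA.cl _ hf _ hf _ hf _ hf
  refine Or.inl (Or.inr ?_)
  simp only [mem_iUnion]
  exact ⟨f, rfl, z, hz1, Or.inl rfl⟩

theorem decAsk {f g : C(X, ℝ)} (hf : f ∈ Fn A) (hg : g ∈ Fn A) {O : Set (X × X)}
    (hO : O ∈ S.ask f g) : Dec A O := by
  intro f' hf' g' hg' hz
  obtain ⟨z, hz1, hz2, hz3, hz4⟩ := wit_exists hz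
  have key : pr z ⊆ A := by
    intro e he
    apply hA.cl _ hf _ hg _ hf' _ hg'
    refine Or.inr ?_
    simp only [mem_iUnion]
    exact ⟨f, rfl, g, rfl, f', rfl, g', rfl, O, hO, z, hz1, he⟩
  exact ⟨z, key (Or.inl rfl), key (Or.inr rfl), hz2, hz3, hz4⟩

end Good

end Sys

end Pool.Agent.H60Gulko
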