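import Pool.Agent.H60Gulko.Family
import Pool.Agent.H60Gulko.Extract
import Pool.Agent.Helper535.R

/-!
# The function space is a Lindelof Sigma-space
-/

set_option autoImplicit false

open Set Cardinal Topology

namespace Pool.Agent.H60Gulko

universe u

variable {X : Type u} [TopologicalSpace X]

theorem ret_univ [CompactSpace X] (S : Sys X) (x : X) : ret (univ : Set (E X)) x = x :=
  (good_univ S).ret_of_mem (subset_closure (mem_univ _))

/-- the topology of codes -/
@[reducible] def codeTop {Ω : Type u} (cls : Ω → Set ℕ) : TopologicalSpace (Code Ω) :=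
  TopologicalSpace.generateFrom (range fun p => {c | Match cls c p})

theorem gs_of_sys [CompactSpace X] [T2Space X] (S : Sys X) :
    ∃ (E : Type u) (_ : TopologicalSpace E) (_ : SecondCountableTopology E),
      Helper535.GS.{u, u} E X := by
  obtain ⟨H, hH⟩ := exists_fam S _ univ (good_univ S) rfl
  let τ : TopologicalSpace (Code S.Ω) := codeTop S.cls
  refine ⟨Code S.Ω, τ, ?_, ?_⟩
  · exact ⟨⟨_, countable_range _, rfl⟩⟩
  · refine ⟨H, fun t => (t.1.1 ⊔ 0) ⊓ 1, fun t => t.1.2, ⟨?_, ?_⟩, ?_⟩
    · intro t x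
      rw [abs_le]
      constructor
      · have : (0 : ℝ) ≤ ((t.1.1 ⊔ 0) ⊓ 1) x := by simp
        linarith
      · simp
    · intro x s ε hε
      obtain ⟨p, hp, hf⟩ := hH.fin x s
      refine ⟨{c | Match S.cls c p}, ?_, ?_⟩
      · have h1 : IsOpen {c : Code S.Ω | Match S.cls c p} :=
          TopologicalSpace.isOpen_generateFrom_of_mem ⟨p, rfl⟩
        exact h1.mem_nhds hp
      · refine Set.Finite.of_finite_image (f := Subtype.val) ?_ Subtype.val_injective.injOn
        refine hf.subset ?_
        rintro _ ⟨t, ⟨h1, h2⟩, rfl⟩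
        refine ⟨t.2, ?_, h1⟩
        by_contra hcon
        have h3 : t.1.1 x ≤ 0 := not_lt.1 hcon
        have h4 : ((t.1.1 ⊔ 0) ⊓ 1) x = 0 := by simp [h3]
        rw [h4, abs_zero] at h2
        linarith
    · intro x y hxy
      by_contra hne
      obtain ⟨t, ht, h1⟩ := hH.sep x y (by
        rw [ret_univ S x, ret_univ S y]
        exact hne)
      have h2 := hxy ⟨t, ht⟩
      simp only [ContinuousMap.inf_apply, ContinuousMap.sup_apply, ContinuousMap.zero_apply,
        ContinuousMap.one_apply] at h2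
      rcases h1 with ⟨h1, h3⟩ | ⟨h1, h3⟩
      · rw [max_eq_left h1.le, max_eq_right h3] at h2
        have : (0 : ℝ) < min (t.1 x) 1 := lt_min h1 one_pos
        rw [h2] at this
        simp at this
      · rw [max_eq_left h1.le, max_eq_right h3] at h2
        have : (0 : ℝ) < min (t.1 y) 1 := lt_min h1 one_pos
        rw [← h2] at this
        simp at this

theorem lindelofSigma_of_sys [CompactSpace X] [T2Space X] (S : Sys X) :
    LindelofSigma {f : X → ℝ // Continuous f} := by
  obtain ⟨E, _, _, hE⟩ := gs_of_sys S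
  obtain ⟨N, hN, hz⟩ := (Helper535.LSg_continuous hE).network
  refine ⟨N, {K | IsCompact K ∧ ∀ U, IsOpen U → K ⊆ U → ∃ F ∈ N, K ⊆ F ∧ F ⊆ U}, hN,
    fun K hK => hK.1, ?_, fun K hK => hK.2⟩
  rw [Set.eq_univ_iff_forall]
  intro z
  obtain ⟨K, hK, hzK, hK'⟩ := hz z
  exact ⟨K, ⟨hK, hK'⟩, hzK⟩

theorem lindelofSigma_of_offDiag [CompactSpace X] [T2Space X]
    (h : WeaklySigmaMetacompact {p : X × X // p.1 ≠ p.2}) :
    LindelofSigma {f : X → ℝ // Continuous f} := by
  obtain ⟨S, -⟩ := exists_sys h (fun _ _ => ∅) (fun _ _ => Set.countable_empty)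
    (fun _ _ O hO => hO.elim)
  exact lindelofSigma_of_sys S

end Pool.Agent.H60Gulko
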